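import Pool.Agent.Lib_helper31.PS.Third
import Pool.Agent.Lib_helper47.TA.F2.FIN2

/-!
# The inverse theorem for the multiples of `q`, `6 ∣ q`, with power saving

Less than the proportion `1 / 2 - ε` of the multiples of `q` are in `D` only if, for some
`Q = 3 mod 4` with `2 ε Q < 1` and some `e` prime to `Q`, nearly all `q j` with `‖e j / Q‖ < 1 / 4` are.
-/

set_option autoImplicit false

namespace Pool.Agent.Lib_helper31.PS

open Finset Pool.Agent.Lib_helper23.PG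

open Classical in
/-- the number of members of `D` in a residue class and a window -/
noncomputable def cN (D : Set ℕ) (M a x n : ℕ) : ℕ :=
  #((Ioc x (x + n)).filter fun y => y ≡ a [MOD M] ∧ y ∈ D)

theorem cN_eq (D : Set ℕ) (M a x n : ℕ) :
    ({d : ℕ | d ≡ a [MOD M] ∧ d ∈ D} ∩ Set.Ioc x (x + n)).ncard = cN D M a x n := by
  classical
  rw [cN, ← Set.ncard_coe_finset]
  congr 1
  ext y
  simp only [coe_filter, mem_Ioc, Set.mem_inter_iff, Set.mem_Ioc, Set.mem_ofPred_eq]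
  tauto

/-- different classes modulo `Q q` of multiples of `q` -/
theorem cN_sum (D : Set ℕ) (q Q : ℕ) (hq : 0 < q) (U : Finset ℤ) (ρ : ℤ → ℕ)
    (hρ : ∀ i ∈ U, ∀ j ∈ U, ρ i ≡ ρ j [MOD Q] → i = j) (x n : ℕ) :
    ∑ i ∈ U, cN D (Q * q) (ρ i * q) x n ≤ cN D q 0 x n := by
  classical
  unfold cN
  rw [← card_biUnion]
  · refine card_le_card (biUnion_subset.2 fun i _ y hy => ?_)
    rw [mem_filter] at hy ⊢
    refine ⟨hy.1, ?_, hy.2.2⟩
    have h1 : y ≡ ρ i * q [MOD q] := hy.2.1.of_dvd (dvd_mul_left _ _)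
    exact h1.trans ((Nat.modEq_zero_iff_dvd).2 (dvd_mul_left _ _))
  · intro i hi j hj hij
    rw [Function.onFun, disjoint_left]
    intro y hy hy'
    rw [mem_filter] at hy hy'
    have h1 : ρ i * q ≡ ρ j * q [MOD Q * q] := hy.2.1.symm.trans hy'.2.1
    exact hij (hρ i hi j hj (Nat.ModEq.mul_right_cancel' hq.ne' h1))

/-- the multiples of `q` in a window -/
theorem win_div {q : ℕ} (hq : 0 < q) (x n : ℕ) :
    (n : ℝ) / q - 1 ≤ (((x + n) / q - x / q : ℕ) : ℝ) ∧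
      (((x + n) / q - x / q : ℕ) : ℝ) ≤ (n : ℝ) / q + 1 := by
  have hqR : (0 : ℝ) < q := by exact_mod_cast hq
  have hle : x / q ≤ (x + n) / q := Nat.div_le_div_right (Nat.le_add_right x n)
  rw [Nat.cast_sub hle]
  have h1 : ((x / q : ℕ) : ℝ) ≤ x / q := Nat.cast_div_le
  have h2 : (((x + n) / q : ℕ) : ℝ) ≤ ((x + n : ℕ) : ℝ) / q := Nat.cast_div_le
  have h3 : (x : ℝ) / q < (x / q : ℕ) + 1 := by
    rw [div_lt_iff₀ hqR]
    have h4 : x < q * (x / q + 1) := by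
      have := Nat.div_add_mod x q
      have := Nat.mod_lt x hq
      nlinarith
    have h5 : (x : ℝ) < q * ((x / q : ℕ) + 1) := by exact_mod_cast h4
    linarith
  have h6 : ((x + n : ℕ) : ℝ) / q < ((x + n) / q : ℕ) + 1 := by
    rw [div_lt_iff₀ hqR]
    have h4 : x + n < q * ((x + n) / q + 1) := by
      have := Nat.div_add_mod (x + n) q
      have := Nat.mod_lt (x + n) hq
      nlinarith
    have h5 : ((x + n : ℕ) : ℝ) < q * (((x + n) / q : ℕ) + 1) := by exact_mod_cast h4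
    linarith
  have h7 : ((x + n : ℕ) : ℝ) / q = x / q + n / q := by
    push_cast
    ring
  constructor <;> linarith

/-- from the windows of `TA.ta_windows2` to shares -/
theorem share_of_index {D : Set ℕ} {q : ℕ} (hq : 0 < q) (s : ℝ)
    (h : ∃ L : ℕ, ∀ a N : ℕ, L ≤ N →
      s * N ≤ (({j : ℕ | q * (a + j) ∈ D} ∩ Set.Iio N).ncard : ℝ)) : Share D q 0 (s / q) := by
  have hqR : (0 : ℝ) < q := by exact_mod_cast hq
  intro e he
  obtain ⟨L, hL⟩ := h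
  obtain ⟨n₁, hn₁⟩ := exists_nat_gt (|s| / e)
  refine ⟨max (q * (L + 1)) n₁, fun n hn x => ?_⟩
  have hn1 : q * (L + 1) ≤ n := le_trans (le_max_left _ _) hn
  have hn2 : n₁ ≤ n := le_trans (le_max_right _ _) hn
  obtain ⟨hw1, hw2⟩ := win_div hq x n
  set N := (x + n) / q - x / q with hN
  have hNL : L ≤ N := by
    have h1 : ((q * (L + 1) : ℕ) : ℝ) ≤ n := by exact_mod_cast hn1
    have h2 : ((L : ℝ) + 1) ≤ n / q := by
      rw [le_div_iff₀ hqR]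
      push_cast at h1
      linarith
    have h3 : (L : ℝ) ≤ N := by linarith
    exact_mod_cast h3
  have h4 := hL (x / q + 1) N hNL
  have h5 : ({j : ℕ | q * (x / q + 1 + j) ∈ D} ∩ Set.Iio N).ncard ≤
      ({d : ℕ | d ≡ 0 [MOD q] ∧ d ∈ D} ∩ Set.Ioc x (x + n)).ncard := by
    refine Set.ncard_le_ncard_of_injOn (fun j => q * (x / q + 1 + j)) ?_ ?_
      ((Set.finite_Ioc _ _).inter_of_right _)
    · rintro j ⟨hj1, hj2⟩
      have hj3 : j < N := hj2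
      refine ⟨⟨(Nat.modEq_zero_iff_dvd).2 (Dvd.intro _ rfl), hj1⟩, ?_, ?_⟩
      · show x < q * (x / q + 1 + j)
        have := Nat.div_add_mod x q
        have := Nat.mod_lt x hq
        nlinarith
      · show q * (x / q + 1 + j) ≤ x + n
        have h6 : x / q + 1 + j ≤ (x + n) / q := by omega
        exact (Nat.mul_le_mul_left q h6).trans (Nat.mul_div_le _ _)
    · intro j _ j' _ hjj
      have h6 : x / q + 1 + j = x / q + 1 + j' := Nat.eq_of_mul_eq_mul_left hq hjj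
      omega
  have h6 : (({j : ℕ | q * (x / q + 1 + j) ∈ D} ∩ Set.Iio N).ncard : ℝ) ≤
      (({d : ℕ | d ≡ 0 [MOD q] ∧ d ∈ D} ∩ Set.Ioc x (x + n)).ncard : ℝ) := by exact_mod_cast h5
  refine le_trans ?_ (h4.trans h6)
  have h7 : |s| ≤ e * n := by
    have h8 : |s| / e < n := lt_of_lt_of_le hn₁ (by exact_mod_cast hn2)
    rw [div_lt_iff₀ he] at h8
    linarith
  have h9 : (s / (q : ℝ) - e) * n = s * (n / q) - e * n := by ring
  rw [h9]
  rcases le_or_gt 0 s with hs | hs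
  · rw [abs_of_nonneg hs] at h7
    have h10 : s * (n / q - 1) ≤ s * N := mul_le_mul_of_nonneg_left hw1 hs
    linarith
  · rw [abs_of_neg hs] at h7
    have h10 : s * (n / q + 1) ≤ s * N := mul_le_mul_of_nonpos_left hw2 hs.le
    linarith

/-- almost all members of a class of multiples of `q` -/
theorem share_full {D : Set ℕ} {q Q : ℕ} (hq : 0 < q) (hQ : 0 < Q) (Jp : ℕ → Prop)
    (hJp : ∀ s s' : ℕ, s ≡ s' [MOD Q] → Jp s → Jp s')
    (h : ∀ η : ℝ, 0 < η → ∃ L : ℕ, ∀ a N : ℕ, L ≤ N →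
      (({j : ℕ | Jp (a + j) ∧ q * (a + j) ∉ D} ∩ Set.Iio N).ncard : ℝ) ≤ η * N) (s : ℕ)
    (hs : Jp s) : Share D (Q * q) (s * q) (1 / ((Q * q : ℕ) : ℝ)) := by
  classical
  have hqR : (0 : ℝ) < q := by exact_mod_cast hq
  have hM : 0 < Q * q := Nat.mul_pos hQ hq
  have hMR : (0 : ℝ) < ((Q * q : ℕ) : ℝ) := by exact_mod_cast hM
  intro e he
  obtain ⟨L, hL⟩ := h (e * q / 2) (by positivity)
  obtain ⟨n₁, hn₁⟩ := exists_nat_gt ((2 + e * q) / e)
  refine ⟨max (q * (L + 1)) n₁, fun n hn x => ?_⟩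
  have hn1 : q * (L + 1) ≤ n := le_trans (le_max_left _ _) hn
  have hn2 : n₁ ≤ n := le_trans (le_max_right _ _) hn
  obtain ⟨hw1, hw2⟩ := win_div hq x n
  set N := (x + n) / q - x / q with hN
  have hNL : L ≤ N := by
    have h1 : ((q * (L + 1) : ℕ) : ℝ) ≤ n := by exact_mod_cast hn1
    have h2 : ((L : ℝ) + 1) ≤ n / q := by
      rw [le_div_iff₀ hqR]
      push_cast at h1
      linarith
    have h3 : (L : ℝ) ≤ N := by linarith
    exact_mod_cast h3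
  have h4 := hL (x / q + 1) N hNL
  -- the members of the class that are not in `D`
  have h5 : #((Ioc x (x + n)).filter fun y => y ≡ s * q [MOD Q * q] ∧ y ∉ D) ≤
      ({j : ℕ | Jp (x / q + 1 + j) ∧ q * (x / q + 1 + j) ∉ D} ∩ Set.Iio N).ncard := by
    rw [← Set.ncard_coe_finset]
    have hdiv : ∀ y, y ≡ s * q [MOD Q * q] → x < y → y ≤ x + n →
        q * (x / q + 1 + (y / q - (x / q + 1))) = y ∧ x / q + 1 + (y / q - (x / q + 1)) ≡ s [MOD Q] ∧
          y / q - (x / q + 1) < N := by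
      intro y hy hxy hyn
      have h6 : q ∣ y := by
        have h7 : y ≡ s * q [MOD q] := hy.of_dvd (dvd_mul_left _ _)
        exact (Nat.modEq_zero_iff_dvd).1 (h7.trans ((Nat.modEq_zero_iff_dvd).2 (dvd_mul_left _ _)))
      obtain ⟨t, rfl⟩ := h6
      rw [Nat.mul_div_cancel_left _ hq]
      have h8 : x / q < t := by
        rw [Nat.div_lt_iff_lt_mul hq]
        linarith [mul_comm t q]
      have h9 : t ≤ (x + n) / q := by
        rw [Nat.le_div_iff_mul_le hq]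
        linarith [mul_comm t q]
      have h10 : x / q + 1 + (t - (x / q + 1)) = t := by omega
      rw [h10]
      refine ⟨rfl, ?_, by omega⟩
      have h11 : t * q ≡ s * q [MOD Q * q] := by rwa [mul_comm t q]
      exact Nat.ModEq.mul_right_cancel' hq.ne' h11
    refine Set.ncard_le_ncard_of_injOn (fun y => y / q - (x / q + 1)) ?_ ?_
      ((Set.finite_Iio _).inter_of_right _)
    · intro y hy
      rw [mem_coe, mem_filter, mem_Ioc] at hy
      obtain ⟨g1, g2, g3⟩ := hdiv y hy.2.1 hy.1.1 hy.1.2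
      refine ⟨⟨hJp _ _ g2.symm hs, ?_⟩, g3⟩
      rw [g1]
      exact hy.2.2
    · intro y hy y' hy' hyy
      rw [mem_coe, mem_filter, mem_Ioc] at hy hy'
      obtain ⟨g1, -, -⟩ := hdiv y hy.2.1 hy.1.1 hy.1.2
      obtain ⟨g1', -, -⟩ := hdiv y' hy'.2.1 hy'.1.1 hy'.1.2
      dsimp only at hyy
      rw [← g1, ← g1', hyy]
  -- all members of the class
  have h6 := class_count (Q * q) (s * q) n x hM
  have h7 : #((Ioc x (x + n)).filter fun y => y ≡ s * q [MOD Q * q]) ≤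
      #((Ioc x (x + n)).filter fun y => y ≡ s * q [MOD Q * q] ∧ y ∈ D) +
        #((Ioc x (x + n)).filter fun y => y ≡ s * q [MOD Q * q] ∧ y ∉ D) := by
    refine le_trans (card_le_card ?_) (card_union_le _ _)
    intro y hy
    rw [mem_filter] at hy
    rw [mem_union, mem_filter, mem_filter]
    by_cases hyD : y ∈ D
    · exact Or.inl ⟨hy.1, hy.2, hyD⟩
    · exact Or.inr ⟨hy.1, hy.2, hyD⟩
  rw [cN_eq]
  unfold cN
  have h8 : (n : ℝ) / ((Q * q : ℕ) : ℝ) - 1 ≤ ((n / (Q * q) : ℕ) : ℝ) := by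
    have h9 : (n : ℝ) / ((Q * q : ℕ) : ℝ) < ((n / (Q * q) : ℕ) : ℝ) + 1 := by
      rw [div_lt_iff₀ hMR]
      have h10 : n < (n / (Q * q) + 1) * (Q * q) := by
        have := Nat.div_add_mod n (Q * q)
        have := Nat.mod_lt n hM
        nlinarith
      exact_mod_cast h10
    linarith
  have h9 : ((n / (Q * q) : ℕ) : ℝ) ≤
      (#((Ioc x (x + n)).filter fun y => y ≡ s * q [MOD Q * q] ∧ y ∈ D) : ℝ) +
        #((Ioc x (x + n)).filter fun y => y ≡ s * q [MOD Q * q] ∧ y ∉ D) := by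
    exact_mod_cast h6.trans h7
  have h10 : (#((Ioc x (x + n)).filter fun y => y ≡ s * q [MOD Q * q] ∧ y ∉ D) : ℝ) ≤
      e * q / 2 * N := le_trans (by exact_mod_cast h5) h4
  have h11 : e * q / 2 * (N : ℝ) ≤ e * q / 2 * (n / q + 1) :=
    mul_le_mul_of_nonneg_left hw2 (by positivity)
  have h12 : e * q / 2 * ((n : ℝ) / q + 1) = e * n / 2 + e * q / 2 := by field_simp
  have h13 : 2 + e * q ≤ e * n := by
    have h14 : (2 + e * q) / e < n := lt_of_lt_of_le hn₁ (by exact_mod_cast hn2)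
    rw [div_lt_iff₀ he] at h14
    linarith
  have h14 : (1 / ((Q * q : ℕ) : ℝ) - e) * n = n / ((Q * q : ℕ) : ℝ) - e * n := by ring
  rw [h14]
  linarith

/-- the sum of several shares -/
theorem shares_sum {D : Set ℕ} {M : ℕ} (U : Finset ℤ) (f : ℤ → ℕ) (σ : ℤ → ℝ)
    (h : ∀ i ∈ U, Share D M (f i) (σ i)) : ∀ e : ℝ, 0 < e → ∃ L : ℕ, ∀ n ≥ L, ∀ x : ℕ,
      (∑ i ∈ U, σ i - e) * n ≤ ∑ i ∈ U, (cN D M (f i) x n : ℝ) := by
  classical
  induction U using Finset.induction_on with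
  | empty =>
    intro e he
    refine ⟨0, fun n _ x => ?_⟩
    rw [sum_empty, sum_empty]
    have : (0 : ℝ) ≤ n := Nat.cast_nonneg n
    nlinarith
  | insert a s ha ih =>
    intro e he
    obtain ⟨L1, h1⟩ := ih (fun i hi => h i (mem_insert_of_mem hi)) (e / 2) (by positivity)
    obtain ⟨L2, h2⟩ := h a (mem_insert_self a s) (e / 2) (by positivity)
    refine ⟨max L1 L2, fun n hn x => ?_⟩
    have h3 := h1 n ((le_max_left _ _).trans hn) x
    have h4 := h2 n ((le_max_right _ _).trans hn) x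
    rw [cN_eq] at h4
    rw [sum_insert ha, sum_insert ha]
    have h5 : (σ a + ∑ i ∈ s, σ i - e) * (n : ℝ) =
        (σ a - e / 2) * n + (∑ i ∈ s, σ i - e / 2) * n := by ring
    rw [h5]
    exact add_le_add h4 h3

/-- the residue of `i d` modulo `Q` -/
def rho (d : ℤ) (Q : ℕ) (i : ℤ) : ℕ := ((i * d) % (Q : ℤ)).toNat

theorem rho_modEq (d : ℤ) {Q : ℕ} (hQ : 0 < Q) (i : ℤ) : ((rho d Q i : ℕ) : ℤ) ≡ i * d [ZMOD Q] := by
  have h1 : ((rho d Q i : ℕ) : ℤ) = (i * d) % (Q : ℤ) :=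
    Int.toNat_of_nonneg (Int.emod_nonneg _ (by exact_mod_cast hQ.ne'))
  rw [h1]
  exact Int.mod_modEq _ _

theorem rho_add (d : ℤ) {Q : ℕ} (hQ : 0 < Q) (i j : ℤ) :
    rho d Q i + rho d Q j ≡ rho d Q (i + j) [MOD Q] := by
  rw [← Int.natCast_modEq_iff]
  push_cast
  have h1 := (rho_modEq d hQ i).add (rho_modEq d hQ j)
  rw [← add_mul] at h1
  exact h1.trans (rho_modEq d hQ (i + j)).symm

theorem rho_inj {d : ℤ} {Q : ℕ} (hQ : 0 < Q) (hd : IsCoprime d (Q : ℤ)) {i j : ℤ}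
    (hij : |i - j| < Q) (h : rho d Q i ≡ rho d Q j [MOD Q]) : i = j := by
  have h1 : i * d ≡ j * d [ZMOD Q] := by
    have h2 : ((rho d Q i : ℕ) : ℤ) ≡ ((rho d Q j : ℕ) : ℤ) [ZMOD Q] := Int.natCast_modEq_iff.2 h
    exact ((rho_modEq d hQ i).symm.trans h2).trans (rho_modEq d hQ j)
  have h2 : (Q : ℤ) ∣ (j - i) * d := by
    rw [sub_mul]
    exact h1.dvd
  have h3 : (Q : ℤ) ∣ j - i := hd.symm.dvd_of_dvd_mul_right h2
  by_contra hne
  have h4 : (0 : ℤ) < |j - i| := abs_pos.2 (sub_ne_zero.2 (Ne.symm hne))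
  have h5 : (Q : ℤ) ≤ |j - i| := Int.le_of_dvd h4 ((dvd_abs _ _).2 h3)
  rw [abs_sub_comm] at hij
  omega

/-- the classes of `- r < i < 3 r` are different -/
theorem rho_inj' {d : ℤ} {r Q : ℕ} (hr : 0 < r) (hQ : Q = 4 * r - 1) (hd : IsCoprime d (Q : ℤ))
    (U : Finset ℤ) (hU : ∀ i ∈ U, -(r : ℤ) < i ∧ i < 3 * r) :
    ∀ i ∈ U, ∀ j ∈ U, rho d Q i ≡ rho d Q j [MOD Q] → i = j := by
  intro i hi j hj h
  have h1 := hU i hi
  have h2 := hU j hj
  refine rho_inj (by omega) hd ?_ h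
  rw [abs_lt]
  constructor <;> omega

/-- half, from full classes and a lower bound for the other ones -/
theorem half_of_sum {D : Set ℕ} {q r Q : ℕ} (hq : 0 < q) (hr : 0 < r) (hQ : Q = 4 * r - 1) {d : ℤ}
    (hd : IsCoprime d (Q : ℤ))
    (hfull : ∀ i ∈ Ioo (-(r : ℤ)) r, Share D (Q * q) (rho d Q i * q) (1 / ((Q * q : ℕ) : ℝ)))
    (U : Finset ℤ) (hU : ∀ i ∈ U, (r : ℤ) ≤ i ∧ i < 3 * r)
    (hrest : ∀ e : ℝ, 0 < e → ∃ L : ℕ, ∀ n ≥ L, ∀ x : ℕ, (1 / 2 / ((Q * q : ℕ) : ℝ) - e) * n ≤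
      ∑ i ∈ U, (cN D (Q * q) (rho d Q i * q) x n : ℝ)) : Share D q 0 (1 / 2 / (q : ℝ)) := by
  classical
  have hqR : (0 : ℝ) < q := by exact_mod_cast hq
  intro e he
  obtain ⟨L1, h1⟩ := shares_sum (Ioo (-(r : ℤ)) r) (fun i => rho d Q i * q) _ hfull (e / 2)
    (by positivity)
  obtain ⟨L2, h2⟩ := hrest (e / 2) (by positivity)
  refine ⟨max L1 L2, fun n hn x => ?_⟩
  have h3 := h1 n ((le_max_left _ _).trans hn) x
  have h4 := h2 n ((le_max_right _ _).trans hn) x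
  rw [cN_eq]
  have hdis : Disjoint (Ioo (-(r : ℤ)) r) U := by
    rw [disjoint_left]
    intro i hi hi'
    have := hU i hi'
    rw [mem_Ioo] at hi
    omega
  have h5 := cN_sum D q Q hq (Ioo (-(r : ℤ)) r ∪ U) (rho d Q) (rho_inj' hr hQ hd _ (by
    intro i hi
    rw [mem_union, mem_Ioo] at hi
    rcases hi with hi | hi
    · omega
    · have := hU i hi
      omega)) x n
  rw [sum_union hdis] at h5
  have h6 : ∑ i ∈ Ioo (-(r : ℤ)) r, (cN D (Q * q) (rho d Q i * q) x n : ℝ) +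
      ∑ i ∈ U, (cN D (Q * q) (rho d Q i * q) x n : ℝ) ≤ cN D q 0 x n := by exact_mod_cast h5
  refine le_trans ?_ h6
  refine le_trans ?_ (add_le_add h3 h4)
  rw [sum_const, nsmul_eq_mul]
  have hcard : ((#(Ioo (-(r : ℤ)) r) : ℕ) : ℝ) = 2 * r - 1 := by
    rw [Int.card_Ioo]
    have h7 : ((r : ℤ) - -(r : ℤ) - 1).toNat = 2 * r - 1 := by omega
    rw [h7, Nat.cast_sub (by omega)]
    push_cast
    ring
  have hQR : (Q : ℝ) = 4 * r - 1 := by
    rw [hQ, Nat.cast_sub (by omega)]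
    push_cast
    ring
  have hr1 : (1 : ℝ) ≤ r := by exact_mod_cast hr
  have hQ0 : (0 : ℝ) < Q := by
    rw [hQR]
    linarith
  have h7 : (1 : ℝ) / 2 / q ≤ (2 * r - 1) * (1 / ((Q * q : ℕ) : ℝ)) + 1 / 2 / ((Q * q : ℕ) : ℝ) := by
    push_cast
    have h8 : (2 * (r : ℝ) - 1) * (1 / ((Q : ℝ) * q)) + 1 / 2 / ((Q : ℝ) * q) = 1 / 2 / q := by
      have h9 : 2 * (r : ℝ) - 1 = (Q - 1) / 2 := by
        rw [hQR]
        ring
      rw [h9]
      field_simp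
      ring
    rw [h8]
  rw [hcard]
  have hn0 : (0 : ℝ) ≤ n := Nat.cast_nonneg n
  have h9 := mul_le_mul_of_nonneg_right h7 hn0
  linarith

/-- **The inverse theorem with power saving.** -/
theorem arc_power {k : ℕ} (hk : 0 < k) {D : Set ℕ} (hD : HitsBins 4 k D) (h0 : 0 ∉ D)
    (three : ∃ c : ℝ, 0 < c ∧ ∃ C : ℝ, ∀ M : ℕ, 0 < M → 6 ∣ M → ∀ c₀ b b₁ b₂ : ℕ, Even c₀ → Even b →
      (3 ∣ c₀ ∨ 3 ∣ b) → b₁ + c₀ ≡ b [MOD M] → b + c₀ ≡ b₂ [MOD M] →
      (∃ n x : ℕ, 0 < n ∧ C * (n : ℝ) ^ (1 - c) <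
        (({d : ℕ | d ≡ c₀ [MOD M] ∧ d ∉ D} ∩ Set.Ioc x (x + n)).ncard : ℝ)) →
      ∀ e : ℝ, 0 < e → ∃ L : ℕ, ∀ n ≥ L, ∀ x : ℕ, ((1 - 1 / 4) / (M : ℝ) - e) * n ≤
        (({d : ℕ | d ≡ b₁ [MOD M] ∧ d ∈ D} ∩ Set.Ioc x (x + n)).ncard : ℝ) +
          (({d : ℕ | d ≡ b [MOD M] ∧ d ∈ D} ∩ Set.Ioc x (x + n)).ncard : ℝ) +
          (({d : ℕ | d ≡ b₂ [MOD M] ∧ d ∈ D} ∩ Set.Ioc x (x + n)).ncard : ℝ)) :
    ∃ c : ℝ, 0 < c ∧ ∃ C : ℝ, ∀ q : ℕ, 0 < q → 6 ∣ q → ∀ ε : ℝ, 0 ≤ ε →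
      Share D q 0 ((1 / 2 - ε) / q) ∨ ∃ (Q : ℕ) (e : ℤ), Q % 4 = 3 ∧ IsCoprime e (Q : ℤ) ∧
        2 * ε * Q < 1 ∧ ∀ n x : ℕ, 0 < n →
          (({d : ℕ | (∃ j : ℕ, d = q * j ∧ ∃ i : ℤ, 4 * |i| < (Q : ℤ) ∧ (Q : ℤ) ∣ e * j - i) ∧
            d ∉ D} ∩ Set.Ioc x (x + n)).ncard : ℝ) ≤ C * Q * (n : ℝ) ^ (1 - c) := by
  classical
  obtain ⟨c₁, hc₁, C₁, H₁⟩ := three
  obtain ⟨c₂, hc₂, C₂, H₂⟩ := third_power hk hD h0 (1 / 12) (by norm_num)
  obtain ⟨c, hc⟩ : ∃ c, c = min c₁ c₂ := ⟨_, rfl⟩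
  obtain ⟨C, hC⟩ : ∃ C, C = max (max C₁ C₂) 0 := ⟨_, rfl⟩
  have hcpos : 0 < c := by
    rw [hc]
    exact lt_min hc₁ hc₂
  have hC0 : 0 ≤ C := by
    rw [hC]
    exact le_max_right _ _
  have hmono : ∀ (c' C' : ℝ), c ≤ c' → C' ≤ C → ∀ n : ℕ, 0 < n →
      C' * (n : ℝ) ^ (1 - c') ≤ C * (n : ℝ) ^ (1 - c) := by
    intro c' C' h1 h2 n hn
    have h3 : (n : ℝ) ^ (1 - c') ≤ (n : ℝ) ^ (1 - c) :=
      Real.rpow_le_rpow_of_exponent_le (by exact_mod_cast hn) (by linarith)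
    have h4 : (0 : ℝ) ≤ (n : ℝ) ^ (1 - c') := Real.rpow_nonneg (Nat.cast_nonneg n) _
    exact (mul_le_mul_of_nonneg_right h2 h4).trans (mul_le_mul_of_nonneg_left h3 hC0)
  have hcc₁ : c ≤ c₁ := by
    rw [hc]
    exact min_le_left _ _
  have hcc₂ : c ≤ c₂ := by
    rw [hc]
    exact min_le_right _ _
  have hCC₁ : C₁ ≤ C := by
    rw [hC]
    exact (le_max_left _ _).trans (le_max_left _ _)
  have hCC₂ : C₂ ≤ C := by
    rw [hC]
    exact (le_max_right _ _).trans (le_max_left _ _)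
  refine ⟨c, hcpos, C, fun q hq h6 ε hε => ?_⟩
  have hqR : (0 : ℝ) < q := by exact_mod_cast hq
  by_cases hS : Share D q 0 ((1 / 2 - ε) / q)
  · exact Or.inl hS
  right
  -- a smaller share fails as well
  obtain ⟨e₀, he₀, hS'⟩ : ∃ e : ℝ, 0 < e ∧ ¬ Share D q 0 ((1 / 2 - ε) / q - e) := by
    by_contra hcon
    push Not at hcon
    exact hS (Share.of_forall hcon)
  have hS2 : ¬ Share D q 0 ((1 / 2 - (ε + e₀ * q)) / q) := by
    have h1 : (1 / 2 - (ε + e₀ * q)) / (q : ℝ) = (1 / 2 - ε) / q - e₀ := by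
      field_simp
      ring
    rw [h1]
    exact hS'
  have hhalf : ¬ Share D q 0 (1 / 2 / (q : ℝ)) := fun h =>
    hS (h.mono (div_le_div_of_nonneg_right (by linarith) hqR.le))
  rcases Pool.Agent.TA.ta_windows2 D k hD q hq h6 (ε + e₀ * q) (by positivity) with
    h | ⟨r, J, hr, ⟨d, hd, hJ⟩, hb, hη⟩
  · exact absurd (share_of_index hq _ h) hS2
  obtain ⟨Q, hQ⟩ : ∃ Q, Q = 4 * r - 1 := ⟨_, rfl⟩
  have hQ0 : 0 < Q := by omega
  have hQZ : (Q : ℤ) = 4 * (r : ℤ) - 1 := by omega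
  have hQR : (Q : ℝ) = 4 * r - 1 := by
    rw [hQ, Nat.cast_sub (by omega)]
    push_cast
    ring
  have hQR0 : (0 : ℝ) < Q := by exact_mod_cast hQ0
  rw [← hQZ] at hd
  have hM : 0 < Q * q := Nat.mul_pos hQ0 hq
  have hM6 : 6 ∣ Q * q := h6.mul_left Q
  have hq2 : Even q := by
    rw [even_iff_two_dvd]
    exact (by norm_num : 2 ∣ 6).trans h6
  have hq3 : 3 ∣ q := (by norm_num : 3 ∣ 6).trans h6
  -- the full classes
  have hfull : ∀ i ∈ Ioo (-(r : ℤ)) r, Share D (Q * q) (rho d Q i * q) (1 / ((Q * q : ℕ) : ℝ)) := by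
    intro i hi
    rw [mem_Ioo] at hi
    refine share_full hq hQ0 (fun s => ((s : ℕ) : ZMod (4 * r - 1)) ∈ J) ?_ hη (rho d Q i) ?_
    · intro s s' hss hs
      have h1 : ((s : ℕ) : ZMod (4 * r - 1)) = ((s' : ℕ) : ZMod (4 * r - 1)) :=
        (ZMod.natCast_eq_natCast_iff _ _ _).2 (hQ ▸ hss)
      rwa [← h1]
    · have h1 := hJ ((rho d Q i : ℕ) : ℤ) ⟨i, abs_lt.2 ⟨by omega, hi.2⟩, by
        rw [← hQZ]
        have := (rho_modEq d hQ0 i).symm.dvd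
        exact this⟩
      simpa using h1
  -- the class of `0`
  have hzero : Few D c₂ C₂ (Q * q) := by
    by_contra hF
    rcases H₂ (Q * q) hM hM6 with h | h
    · exact hF h
    · refine hhalf (half_of_sum hq hr hQ hd hfull (Ico (r : ℤ) (3 * r)) (fun i hi => by
        rw [mem_Ico] at hi
        exact hi) ?_)
      intro e he
      obtain ⟨L, hL⟩ := shares_sum (Ico (r : ℤ) (3 * r)) (fun i => rho d Q i * q)
        (fun _ => (1 / 3 - 1 / 12) / ((Q * q : ℕ) : ℝ)) (fun i _ => h _ (hq2.mul_left _)) e he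
      refine ⟨L, fun n hn x => le_trans ?_ (hL n hn x)⟩
      refine mul_le_mul_of_nonneg_right (sub_le_sub_right ?_ _) (Nat.cast_nonneg n)
      rw [sum_const, nsmul_eq_mul, Int.card_Ico]
      have h7 : ((3 * (r : ℤ)) - r).toNat = 2 * r := by omega
      rw [h7]
      push_cast
      have hr1 : (1 : ℝ) ≤ r := by exact_mod_cast hr
      have h8 : (0 : ℝ) < Q * q := by positivity
      rw [mul_div_assoc']
      refine div_le_div_of_nonneg_right ?_ h8.le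
      linarith
  -- the other classes
  have hclass : ∀ i : ℤ, i ∈ Ioo (-(r : ℤ)) r → i ≠ 0 → ∀ n x : ℕ, 0 < n →
      (({d' : ℕ | d' ≡ rho d Q i * q [MOD Q * q] ∧ d' ∉ D} ∩ Set.Ioc x (x + n)).ncard : ℝ) ≤
        C₁ * (n : ℝ) ^ (1 - c₁) := by
    intro i hi hi0 n x hn
    rw [mem_Ioo] at hi
    by_contra hF
    push Not at hF
    have h3 := H₁ (Q * q) hM hM6 (rho d Q i * q) (rho d Q (2 * r) * q) (rho d Q (2 * r - i) * q)
      (rho d Q (2 * r + i) * q) (hq2.mul_left _) (hq2.mul_left _) (Or.inl (hq3.mul_left _))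
      (by
        rw [← add_mul]
        refine Nat.ModEq.mul_right' q ?_
        have h4 := rho_add d hQ0 (2 * r - i) i
        rwa [sub_add_cancel] at h4)
      (by
        rw [← add_mul]
        exact Nat.ModEq.mul_right' q (rho_add d hQ0 (2 * r) i))
      ⟨n, x, hn, hF⟩
    refine hhalf (half_of_sum hq hr hQ hd hfull {2 * (r : ℤ) - i, 2 * (r : ℤ), 2 * (r : ℤ) + i}
      (fun j hj => by
        rw [mem_insert, mem_insert, mem_singleton] at hj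
        rcases hj with rfl | rfl | rfl <;> constructor <;> omega) ?_)
    intro e he
    obtain ⟨L, hL⟩ := h3 e he
    refine ⟨L, fun n hn x => ?_⟩
    have h4 := hL n hn x
    rw [cN_eq, cN_eq, cN_eq] at h4
    rw [sum_insert (by
      rw [mem_insert, mem_singleton]
      omega), sum_insert (by
      rw [mem_singleton]
      omega), sum_singleton, ← add_assoc]
    refine le_trans (mul_le_mul_of_nonneg_right (sub_le_sub_right ?_ _) (Nat.cast_nonneg n)) h4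
    exact div_le_div_of_nonneg_right (by norm_num) (Nat.cast_nonneg _)
  -- the bound for `Q`
  have hbound : 2 * ε * (Q : ℝ) < 1 := by
    rw [← hQR] at hb
    have h1 : 0 < 2 * (e₀ * q) * (Q : ℝ) := by positivity
    have h2 : 2 * (ε + e₀ * q) * (Q : ℝ) = 2 * ε * Q + 2 * (e₀ * q) * Q := by ring
    linarith
  obtain ⟨e, c', hec⟩ := hd
  refine ⟨Q, e, by omega, ⟨d, c', by rw [mul_comm d e]; exact hec⟩, hbound, fun n x hn => ?_⟩
  have hsub : ({d' : ℕ | (∃ j : ℕ, d' = q * j ∧ ∃ i : ℤ, 4 * |i| < (Q : ℤ) ∧ (Q : ℤ) ∣ e * j - i) ∧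
      d' ∉ D} ∩ Set.Ioc x (x + n)) ⊆ ⋃ i ∈ Ioo (-(r : ℤ)) r,
        ({d' : ℕ | d' ≡ rho d Q i * q [MOD Q * q] ∧ d' ∉ D} ∩ Set.Ioc x (x + n)) := by
    rintro d' ⟨⟨⟨j, rfl, i, hi, hei⟩, hjD⟩, hx⟩
    rw [Set.mem_iUnion₂]
    refine ⟨i, ?_, ⟨?_, hjD⟩, hx⟩
    · rw [mem_Ioo]
      have h1 : |i| < r := by omega
      rw [abs_lt] at h1
      exact h1
    · have h1 : (j : ℤ) ≡ i * d [ZMOD Q] := by
        refine (Int.modEq_iff_dvd.2 ?_).symm
        have h2 : (j : ℤ) - i * d = d * (e * j - i) + Q * (c' * j) := by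
          linear_combination (-(j : ℤ)) * hec
        rw [h2]
        exact dvd_add (hei.mul_left d) (dvd_mul_right _ _)
      have h2 : j ≡ rho d Q i [MOD Q] := by
        rw [← Int.natCast_modEq_iff]
        exact h1.trans (rho_modEq d hQ0 i).symm
      show q * j ≡ rho d Q i * q [MOD Q * q]
      rw [mul_comm q j]
      exact Nat.ModEq.mul_right' q h2
  have hfin : ∀ i ∈ Ioo (-(r : ℤ)) r, ({d' : ℕ | d' ≡ rho d Q i * q [MOD Q * q] ∧ d' ∉ D} ∩
      Set.Ioc x (x + n)).Finite := fun i _ => (Set.finite_Ioc _ _).inter_of_right _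
  have h1 : ({d' : ℕ | (∃ j : ℕ, d' = q * j ∧ ∃ i : ℤ, 4 * |i| < (Q : ℤ) ∧
      (Q : ℤ) ∣ e * j - i) ∧ d' ∉ D} ∩ Set.Ioc x (x + n)).ncard ≤ ∑ i ∈ Ioo (-(r : ℤ)) r,
        ({d' : ℕ | d' ≡ rho d Q i * q [MOD Q * q] ∧ d' ∉ D} ∩ Set.Ioc x (x + n)).ncard := by
    refine (Set.ncard_le_ncard hsub ?_).trans (Finset.set_ncard_biUnion_le _ _)
    exact Set.Finite.biUnion (finite_toSet _) fun i hi => hfin i hi
  have h2 : ∀ i ∈ Ioo (-(r : ℤ)) r,
      (({d' : ℕ | d' ≡ rho d Q i * q [MOD Q * q] ∧ d' ∉ D} ∩ Set.Ioc x (x + n)).ncard : ℝ) ≤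
        C * (n : ℝ) ^ (1 - c) := by
    intro i hi
    by_cases hi0 : i = 0
    · subst hi0
      have h3 := hzero n x hn
      have h4 : {d' : ℕ | d' ≡ rho d Q 0 * q [MOD Q * q] ∧ d' ∉ D} = {d' : ℕ | Q * q ∣ d' ∧ d' ∉ D} := by
        ext y
        have h5 : rho d Q 0 = 0 := by
          unfold rho
          rw [zero_mul, Int.zero_emod, Int.toNat_zero]
        rw [Set.mem_ofPred_eq, Set.mem_ofPred_eq, h5, zero_mul, Nat.modEq_zero_iff_dvd]
      rw [h4]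
      exact h3.trans (hmono c₂ C₂ hcc₂ hCC₂ n hn)
    · exact (hclass i hi hi0 n x hn).trans (hmono c₁ C₁ hcc₁ hCC₁ n hn)
  have h3 : (({d' : ℕ | (∃ j : ℕ, d' = q * j ∧ ∃ i : ℤ, 4 * |i| < (Q : ℤ) ∧
      (Q : ℤ) ∣ e * j - i) ∧ d' ∉ D} ∩ Set.Ioc x (x + n)).ncard : ℝ) ≤
        ∑ _i ∈ Ioo (-(r : ℤ)) r, C * (n : ℝ) ^ (1 - c) := by
    refine le_trans ((Nat.cast_le (α := ℝ)).2 h1) ?_
    rw [Nat.cast_sum]
    exact sum_le_sum h2
  refine h3.trans ?_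
  rw [sum_const, nsmul_eq_mul, Int.card_Ioo]
  have h4 : (((r : ℤ) - -(r : ℤ) - 1).toNat : ℝ) ≤ Q := by
    have h5 : ((r : ℤ) - -(r : ℤ) - 1).toNat ≤ Q := by omega
    exact_mod_cast h5
  have h5 : (0 : ℝ) ≤ C * (n : ℝ) ^ (1 - c) :=
    mul_nonneg hC0 (Real.rpow_nonneg (Nat.cast_nonneg n) _)
  have h6' := mul_le_mul_of_nonneg_right h4 h5
  refine h6'.trans (le_of_eq ?_)
  ring

end Pool.Agent.Lib_helper31.PS
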