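import Pool.Agent.Lib_helper20.FP.Power

/-!
# The three term inequality, with exceptions counted among consecutive members of a class
-/

set_option autoImplicit false

namespace Pool.Agent.Lib_helper31.PS

open Finset Pool.Agent.Lib_helper23.PG Pool.Agent.Lib_helper23.ES Pool.Agent.Lib_helper20.FP

/-- If more than `C * N ^ (1 - c)` of the `N` numbers `c₀, c₀ + M, ..., c₀ + (N - 1) M` are not in `D`,
then the classes of `b - c₀`, `b`, `b + c₀` modulo `M` contain together nearly as many members of `D` as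
one class has members. -/
theorem three_index {k : ℕ} (hk : 0 < k) {D : Set ℕ} (hD : HitsBins 4 k D) (h0 : 0 ∉ D) (η : ℝ)
    (hη : 0 < η) : ∃ c : ℝ, 0 < c ∧ ∃ C : ℝ, ∀ M : ℕ, 0 < M → 6 ∣ M → ∀ c₀ b b₁ b₂ : ℕ, 0 < c₀ →
      Even c₀ → Even b → (3 ∣ c₀ ∨ 3 ∣ b) → b₁ + c₀ ≡ b [MOD M] → b + c₀ ≡ b₂ [MOD M] →
      (∃ N : ℕ, 0 < N ∧ C * (N : ℝ) ^ (1 - c) <
        (({j : ℕ | c₀ + M * j ∉ D} ∩ Set.Iio N).ncard : ℝ)) →
      ∀ e : ℝ, 0 < e → ∃ L : ℕ, ∀ n ≥ L, ∀ x : ℕ, ((1 - η) / (M : ℝ) - e) * n ≤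
        (({d : ℕ | d ≡ b₁ [MOD M] ∧ d ∈ D} ∩ Set.Ioc x (x + n)).ncard : ℝ) +
        (({d : ℕ | d ≡ b [MOD M] ∧ d ∈ D} ∩ Set.Ioc x (x + n)).ncard : ℝ) +
        (({d : ℕ | d ≡ b₂ [MOD M] ∧ d ∈ D} ∩ Set.Ioc x (x + n)).ncard : ℝ) := by
  classical
  obtain ⟨η', hηd⟩ : ∃ η', η' = min η 1 := ⟨_, rfl⟩
  have hη' : 0 < η' := by
    rw [hηd]
    exact lt_min hη one_pos
  have hη1 : η' ≤ 1 := by
    rw [hηd]
    exact min_le_right _ _
  have hηe : η' ≤ η := by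
    rw [hηd]
    exact min_le_left _ _
  have hGZ : ∀ d ∈ D, GZ D (d : ℤ) := fun d hd => ⟨d, hd, rfl⟩
  obtain ⟨m, hm⟩ := few_index2 h0 (few_cliques hk hD hGZ) (η' ^ 4 / 4) (by positivity)
  obtain ⟨c, hc, -, C, -, hcube⟩ := cube m
  refine ⟨c, hc, C, fun M hM0 hM c₀ b b₁ b₂ hc0 hc₀ hb h3 hb₁ hb₂ hex e he => ?_⟩
  obtain ⟨N, hN, hlt⟩ := hex
  obtain ⟨S, hS⟩ : ∃ S : Finset ℕ, S = ((range N).filter fun j => c₀ + M * j ∉ D).image
    (fun j => j + 1) := ⟨_, rfl⟩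
  have hSc : ({j : ℕ | c₀ + M * j ∉ D} ∩ Set.Iio N).ncard = #S := by
    rw [hS, card_image_of_injective _ (fun a b hab => Nat.succ_injective hab),
      ← Set.ncard_coe_finset]
    congr 1
    ext y
    simp only [coe_filter, mem_range, Set.mem_inter_iff, Set.mem_Iio, Set.mem_ofPred_eq]
    tauto
  rw [hSc] at hlt
  have hSmem : ∀ s ∈ S, 0 < s ∧ s ≤ 0 + N ∧ c₀ + M * (s - 1) ∉ D := by
    intro s hs
    rw [hS, mem_image] at hs
    obtain ⟨j, hj, rfl⟩ := hs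
    rw [mem_filter, mem_range] at hj
    refine ⟨Nat.succ_pos j, by omega, ?_⟩
    rw [Nat.add_sub_cancel]
    exact hj.2
  obtain ⟨R, u, hu, hRu⟩ := hcube N 0 hN S (fun s hs => ⟨(hSmem s hs).1, (hSmem s hs).2.1⟩) hlt
  have hR1 : 0 < R := by
    have h1 := (hSmem _ (hRu 0 0 le_rfl (Nat.zero_le _))).1
    rwa [Nat.sub_self, Nat.add_zero] at h1
  have hu' : ∀ i j, i < j → j ≤ m → M * u i < M * u j := fun i j hij hj =>
    Nat.mul_lt_mul_of_pos_left (hu i j hij hj) hM0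
  have hqu : ∀ i j, M ∣ M * u j - M * u i := fun i j =>
    Nat.dvd_sub (dvd_mul_right _ _) (dvd_mul_right _ _)
  have hmem : ∀ i j, i ≤ j → j ≤ m → c₀ + M * (R - 1) + (M * u j - M * u i) ∉ D := by
    intro i j hij hj
    have h1 := (hSmem _ (hRu i j hij hj)).2.2
    have h2 : c₀ + M * (R - 1) + (M * u j - M * u i) = c₀ + M * (R + (u j - u i) - 1) := by
      rw [← Nat.mul_sub, add_assoc, ← mul_add]
      congr 2
      omega
    rwa [h2]
  have hR0 : 0 < c₀ + M * (R - 1) := by omega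
  have hRc : c₀ + M * (R - 1) ≡ c₀ [MOD M] := Nat.add_mul_mod_self_left _ _ _
  have hR6 : (c₀ + M * (R - 1)) % 6 = c₀ % 6 := hRc.of_dvd hM
  have hc₀' := Nat.even_iff.1 hc₀
  have hb' := Nat.even_iff.1 hb
  have hb6 : (b₁ + c₀) % 6 = b % 6 := hb₁.of_dvd hM
  obtain ⟨L, hL⟩ := three_of_tri (D := D) M hM0 m (c₀ + M * (R - 1)) (fun i => M * u i - M * u 0) b b₁
    b₂ ((Nat.ModEq.add_left b₁ hRc).trans hb₁) ((Nat.ModEq.add_left b hRc).trans hb₂)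
    (fun i _ => hqu 0 i) η' hη'.le hη1 (fun w hw hwa => by
      refine tri_few (D := D) m (c₀ + M * (R - 1)) (fun i => M * u i - M * u 0) w η' hη'.le
        fun Q hQ => ?_
      have hw6 : w % 6 = b₁ % 6 := hwa.of_dvd hM
      exact hm (c₀ + M * (R - 1)) (fun i => M * u i) hR0 (Nat.even_iff.2 (by omega)) hu'
        (fun i j _ _ => hM.trans (hqu i j)) hmem w hw
        (Nat.even_iff.2 (by omega)) (by rcases h3 with h3 | h3 <;> omega) Q hQ) e he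
  refine ⟨L, fun n' hn' x' => le_trans ?_ (hL n' hn' x')⟩
  refine mul_le_mul_of_nonneg_right ?_ (Nat.cast_nonneg n')
  have h1 : (1 - η) / (M : ℝ) ≤ (1 - η') / (M : ℝ) :=
    div_le_div_of_nonneg_right (by linarith) (Nat.cast_nonneg M)
  linarith

end Pool.Agent.Lib_helper31.PS
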