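import Mathlib

/-!
# Windows: almost all multiples, few exceptions, shares of residue classes
-/

set_option autoImplicit false

namespace Pool.Agent.Lib_helper31.PS

open Finset

/-- In every long window almost all multiples of `q` are in `D`. -/
def AlmostAll (D : Set ℕ) (q : ℕ) : Prop := ∀ η : ℝ, 0 < η → ∃ L : ℕ, ∀ n ≥ L, ∀ x : ℕ,
  (({d : ℕ | q ∣ d ∧ d ∉ D} ∩ Set.Ioc x (x + n)).ncard : ℝ) ≤ η * n

/-- Every window of length `n` contains at most `C * n ^ (1 - c)` multiples of `q` outside `D`. -/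
def Few (D : Set ℕ) (c C : ℝ) (q : ℕ) : Prop := ∀ n x : ℕ, 0 < n →
  (({d : ℕ | q ∣ d ∧ d ∉ D} ∩ Set.Ioc x (x + n)).ncard : ℝ) ≤ C * (n : ℝ) ^ (1 - c)

/-- Every long window contains at least `(s - e) n` elements of `D` that are congruent to `a`
modulo `q`. -/
def Share (D : Set ℕ) (q a : ℕ) (s : ℝ) : Prop := ∀ e : ℝ, 0 < e → ∃ L : ℕ, ∀ n ≥ L, ∀ x : ℕ,
  (s - e) * n ≤ (({d : ℕ | d ≡ a [MOD q] ∧ d ∈ D} ∩ Set.Ioc x (x + n)).ncard : ℝ)

theorem Share.mono {D : Set ℕ} {q a : ℕ} {s s' : ℝ} (h : Share D q a s) (hs : s' ≤ s) :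
    Share D q a s' := by
  intro e he
  obtain ⟨L, hL⟩ := h e he
  refine ⟨L, fun n hn x => le_trans ?_ (hL n hn x)⟩
  exact mul_le_mul_of_nonneg_right (by linarith) (Nat.cast_nonneg n)

/-- a share that is attained up to every error -/
theorem Share.of_forall {D : Set ℕ} {q a : ℕ} {s : ℝ} (h : ∀ e : ℝ, 0 < e → Share D q a (s - e)) :
    Share D q a s := by
  intro e he
  obtain ⟨L, hL⟩ := h (e / 2) (by positivity) (e / 2) (by positivity)
  refine ⟨L, fun n hn x => ?_⟩
  have h1 := hL n hn x
  have h2 : s - e / 2 - e / 2 = s - e := by ring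
  rwa [h2] at h1

/-- few exceptions are exceptions of density zero -/
theorem Few.almostAll {D : Set ℕ} {c C : ℝ} {q : ℕ} (hc : 0 < c) (h : Few D c C q) :
    AlmostAll D q := by
  intro η hη
  have h1 : Filter.Tendsto (fun x : ℝ => x ^ (-c)) Filter.atTop (nhds 0) :=
    tendsto_rpow_neg_atTop hc
  have h2 := (h1.comp tendsto_natCast_atTop_atTop).const_mul C
  rw [mul_zero] at h2
  have h3 := (h2.eventually (ge_mem_nhds hη)).and (Filter.eventually_gt_atTop 0)
  obtain ⟨L, hL⟩ := Filter.eventually_atTop.1 h3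
  refine ⟨L, fun n hn x => ?_⟩
  obtain ⟨h4, h5⟩ := hL n hn
  have hnR : (0 : ℝ) < n := by exact_mod_cast h5
  refine (h n x h5).trans ?_
  have h6 : C * (n : ℝ) ^ (1 - c) = C * (n : ℝ) ^ (-c) * n := by
    rw [sub_eq_add_neg, Real.rpow_add hnR, Real.rpow_one]
    ring
  rw [h6]
  exact mul_le_mul_of_nonneg_right h4 hnR.le

/-- a window contains many members of a class -/
theorem class_count (q a n x : ℕ) (hq : 0 < q) :
    n / q ≤ ((Ioc x (x + n)).filter fun y => y ≡ a [MOD q]).card := by
  classical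
  -- the first member after `x`
  obtain ⟨r, hr1, hr2, hr3⟩ : ∃ r, 1 ≤ r ∧ r ≤ q ∧ x + r ≡ a [MOD q] := by
    have h1 : x % q < q := Nat.mod_lt _ hq
    have h2 : a % q < q := Nat.mod_lt _ hq
    by_cases h : x % q < a % q
    · refine ⟨a % q - x % q, by omega, by omega, ?_⟩
      have h3 : x + (a % q - x % q) = q * (x / q) + a % q := by
        have := Nat.div_add_mod x q
        omega
      show (x + (a % q - x % q)) % q = a % q
      rw [h3, Nat.mul_add_mod]
      exact Nat.mod_mod _ _
    · refine ⟨q + a % q - x % q, by omega, by omega, ?_⟩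
      have h3 : x + (q + a % q - x % q) = q * (x / q + 1) + a % q := by
        have := Nat.div_add_mod x q
        rw [mul_add, mul_one]
        omega
      show (x + (q + a % q - x % q)) % q = a % q
      rw [h3, Nat.mul_add_mod]
      exact Nat.mod_mod _ _
  have h4 : (range (n / q)).card ≤ ((Ioc x (x + n)).filter fun y => y ≡ a [MOD q]).card := by
    refine card_le_card_of_injOn (fun j => x + r + q * j) (fun j hj => ?_) (fun j _ j' _ h => ?_)
    · have hj' : j < n / q := by simpa using hj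
      have h5 : q * (j + 1) ≤ q * (n / q) := Nat.mul_le_mul_left q hj'
      have h6 : q * (n / q) ≤ n := Nat.mul_div_le n q
      rw [mul_add, mul_one] at h5
      simp only [coe_filter, mem_Ioc, Set.mem_ofPred_eq]
      refine ⟨⟨by omega, by omega⟩, ?_⟩
      show (x + r + q * j) % q = a % q
      rw [Nat.add_mul_mod_self_left]
      exact hr3
    · dsimp only at h
      have h5 : q * j = q * j' := by omega
      exact Nat.eq_of_mul_eq_mul_left hq h5
  rwa [card_range] at h4

end Pool.Agent.Lib_helper31.PS
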