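import Mathlib

/-!
# Intervals of a Hilbert cube in a set with more than `C n ^ (1 - c)` elements
-/

set_option autoImplicit false

namespace Pool.Agent.Lib_helper31.PS

open Finset

/-- a popular difference -/
theorem popular (S : Finset ℕ) (n x : ℕ) (hS : ∀ s ∈ S, x < s ∧ s ≤ x + n) (K : ℝ)
    (hK : ∀ δ ∈ Icc 1 n, (#(S.filter fun s => s + δ ∈ S) : ℝ) ≤ K) :
    (#S : ℝ) ^ 2 ≤ #S + 2 * (n * K) := by
  classical
  set P := (S ×ˢ S).filter fun p => p.1 < p.2 with hP
  have h1 : (#P : ℝ) ≤ n * K := by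
    have h2 : P ⊆ (Icc 1 n).biUnion fun δ => (S.filter fun s => s + δ ∈ S).image fun s => (s, s + δ) := by
      intro p hp
      rw [hP, mem_filter, mem_product] at hp
      obtain ⟨⟨p1, p2⟩, p3⟩ := hp
      have b1 := hS _ p1
      have b2 := hS _ p2
      rw [mem_biUnion]
      refine ⟨p.2 - p.1, mem_Icc.2 ⟨by omega, by omega⟩, ?_⟩
      rw [mem_image]
      have h3 : p.1 + (p.2 - p.1) = p.2 := by omega
      refine ⟨p.1, mem_filter.2 ⟨p1, ?_⟩, ?_⟩
      · rw [h3]
        exact p2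
      · rw [h3]
    have h3 : #P ≤ ∑ δ ∈ Icc 1 n, #(S.filter fun s => s + δ ∈ S) :=
      (card_le_card h2).trans (card_biUnion_le.trans (sum_le_sum fun δ _ => card_image_le))
    calc (#P : ℝ) ≤ ((∑ δ ∈ Icc 1 n, #(S.filter fun s => s + δ ∈ S) : ℕ) : ℝ) := by exact_mod_cast h3
      _ = ∑ δ ∈ Icc 1 n, (#(S.filter fun s => s + δ ∈ S) : ℝ) := by push_cast; rfl
      _ ≤ ∑ _δ ∈ Icc 1 n, K := sum_le_sum hK
      _ = n * K := by
        rw [sum_const, Nat.card_Icc, nsmul_eq_mul]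
        congr 2
  have h2 : S ×ˢ S ⊆ (S.image fun s => (s, s)) ∪ (P ∪ P.image Prod.swap) := by
    intro p hp
    rw [mem_product] at hp
    rw [mem_union, mem_union, mem_image, mem_image]
    rcases lt_trichotomy p.1 p.2 with h | h | h
    · exact Or.inr (Or.inl (mem_filter.2 ⟨mem_product.2 hp, h⟩))
    · exact Or.inl ⟨p.1, hp.1, Prod.ext rfl h⟩
    · exact Or.inr (Or.inr ⟨p.swap, mem_filter.2 ⟨mem_product.2 ⟨hp.2, hp.1⟩, h⟩, Prod.swap_swap p⟩)
  have h3 : #S * #S ≤ #S + (#P + #P) := by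
    calc #S * #S = #(S ×ˢ S) := (card_product _ _).symm
      _ ≤ _ := card_le_card h2
      _ ≤ _ := card_union_le _ _
      _ ≤ #S + (#P + #P) := Nat.add_le_add card_image_le
          ((card_union_le _ _).trans (Nat.add_le_add_left card_image_le _))
  have h4 : (#S : ℝ) * #S ≤ #S + (#P + #P) := by exact_mod_cast h3
  rw [sq]
  linarith

/-- **intervals of a Hilbert cube** -/
theorem cube (m : ℕ) : ∃ c : ℝ, 0 < c ∧ c ≤ 1 ∧ ∃ C : ℝ, 0 < C ∧ ∀ n x : ℕ, 0 < n → ∀ S : Finset ℕ,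
    (∀ s ∈ S, x < s ∧ s ≤ x + n) → C * (n : ℝ) ^ (1 - c) < #S →
    ∃ (R : ℕ) (u : ℕ → ℕ), (∀ i j, i < j → j ≤ m → u i < u j) ∧
      ∀ i j, i ≤ j → j ≤ m → R + (u j - u i) ∈ S := by
  classical
  induction m with
  | zero =>
    refine ⟨1, one_pos, le_rfl, 1, one_pos, fun n x hn S hS h => ?_⟩
    rw [sub_self, Real.rpow_zero, mul_one] at h
    have h1 : 0 < #S := by
      have : (0 : ℝ) < #S := zero_lt_one.trans h
      exact_mod_cast this
    obtain ⟨R, hR⟩ := card_pos.1 h1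
    refine ⟨R, fun _ => 0, fun i j hij hj => by omega, fun i j _ _ => ?_⟩
    rwa [Nat.sub_self, Nat.add_zero]
  | succ m ih =>
    obtain ⟨c, hc, hc1, C, hC, ih⟩ := ih
    refine ⟨c / 2, by positivity, by linarith, 2 * (C + 1), by positivity, fun n x hn S hS h => ?_⟩
    have hnR : (0 : ℝ) < n := by exact_mod_cast hn
    have hn1 : (1 : ℝ) ≤ n := by exact_mod_cast hn
    have hp1 : (1 : ℝ) ≤ (n : ℝ) ^ (1 - c / 2) := Real.one_le_rpow hn1 (by linarith)
    have hS2 : (2 : ℝ) ≤ #S := by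
      have h1 : 2 * (C + 1) * 1 ≤ 2 * (C + 1) * (n : ℝ) ^ (1 - c / 2) :=
        mul_le_mul_of_nonneg_left hp1 (by positivity)
      linarith
    have hpow : ((n : ℝ) ^ (1 - c / 2)) ^ 2 = n * (n : ℝ) ^ (1 - c) := by
      rw [← Real.rpow_natCast, ← Real.rpow_mul hnR.le]
      have h1 : (1 - c / 2) * ((2 : ℕ) : ℝ) = 1 + (1 - c) := by
        push_cast
        ring
      rw [h1, Real.rpow_add hnR, Real.rpow_one]
    obtain ⟨δ, hδ, hδS⟩ : ∃ δ ∈ Icc 1 n, C * (n : ℝ) ^ (1 - c) < #(S.filter fun s => s + δ ∈ S) := by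
      by_contra hcon
      push Not at hcon
      have h1 := popular S n x hS _ hcon
      have h2 : (2 * (C + 1) * (n : ℝ) ^ (1 - c / 2)) ^ 2 < (#S : ℝ) ^ 2 :=
        pow_lt_pow_left₀ h (by positivity) two_ne_zero
      have h3 : (2 * (C + 1) * (n : ℝ) ^ (1 - c / 2)) ^ 2 =
          4 * (C + 1) ^ 2 * (n * (n : ℝ) ^ (1 - c)) := by
        rw [mul_pow, hpow]
        ring
      rw [h3] at h2
      have h4 : (#S : ℝ) * 2 ≤ (#S : ℝ) ^ 2 := by
        rw [sq]
        exact mul_le_mul_of_nonneg_left hS2 (by positivity)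
      have h5 : 0 < (n : ℝ) * (n : ℝ) ^ (1 - c) := by positivity
      have h6 : 4 * C * ((n : ℝ) * (n : ℝ) ^ (1 - c)) ≤
          4 * (C + 1) ^ 2 * (n * (n : ℝ) ^ (1 - c)) := by
        refine mul_le_mul_of_nonneg_right ?_ h5.le
        nlinarith
      have h7 : 2 * ((n : ℝ) * (C * (n : ℝ) ^ (1 - c))) = 2 * C * (n * (n : ℝ) ^ (1 - c)) := by ring
      rw [h7] at h1
      linarith
    obtain ⟨R, u, hu, hR⟩ := ih n x hn (S.filter fun s => s + δ ∈ S)
      (fun s hs => hS s (mem_filter.1 hs).1) hδS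
    have hδ1 : 1 ≤ δ := (mem_Icc.1 hδ).1
    have hle : ∀ i, i ≤ m → u i ≤ u m := by
      intro i hi
      rcases hi.lt_or_eq with h1 | rfl
      · exact (hu i m h1 le_rfl).le
      · exact le_rfl
    refine ⟨R, fun i => if i ≤ m then u i else u m + δ, fun i j hij hj => ?_, fun i j hij hj => ?_⟩
    · have hi : i ≤ m := by omega
      dsimp only
      rw [if_pos hi]
      by_cases hjm : j ≤ m
      · rw [if_pos hjm]
        exact hu i j hij hjm
      · rw [if_neg hjm]
        have := hle i hi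
        omega
    · dsimp only
      by_cases hjm : j ≤ m
      · rw [if_pos hjm, if_pos (hij.trans hjm)]
        exact (mem_filter.1 (hR i j hij hjm)).1
      · rw [if_neg hjm]
        by_cases him : i ≤ m
        · rw [if_pos him]
          have h1 := (mem_filter.1 (hR i m him le_rfl)).2
          have h2 := hle i him
          have h3 : R + (u m + δ - u i) = R + (u m - u i) + δ := by omega
          rwa [h3]
        · rw [if_neg him, Nat.sub_self]
          have h1 := (mem_filter.1 (hR 0 0 le_rfl (Nat.zero_le _))).1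
          rwa [Nat.sub_self] at h1

end Pool.Agent.Lib_helper31.PS
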