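import Pool.Agent.Lib_helper31.PS.Third
import Pool.Agent.Lib_helper33.FP.Main
import Pool.Agent.Lib_helper23.HALF.Fin

/-!
# The dichotomies for all even moduli
-/

set_option autoImplicit false

namespace Pool.Agent.Lib_helper31.PS

open Finset Pool.Agent.Lib_helper23.PG

/-- a class modulo `q` consists of three classes modulo `3 q` -/
theorem Share.three {D : Set ℕ} {q a : ℕ} (hq : 0 < q) {s : ℕ → ℝ}
    (h : ∀ i < 3, Share D (3 * q) (a + i * q) (s i)) : Share D q a (s 0 + s 1 + s 2) := by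
  classical
  intro e he
  obtain ⟨L0, hL0⟩ := h 0 (by norm_num) (e / 3) (by positivity)
  obtain ⟨L1, hL1⟩ := h 1 (by norm_num) (e / 3) (by positivity)
  obtain ⟨L2, hL2⟩ := h 2 (by norm_num) (e / 3) (by positivity)
  refine ⟨max L0 (max L1 L2), fun n hn x => ?_⟩
  have h0 := hL0 n ((le_max_left _ _).trans hn) x
  have h1 := hL1 n (((le_max_left _ _).trans (le_max_right _ _)).trans hn) x
  have h2 := hL2 n (((le_max_right _ _).trans (le_max_right _ _)).trans hn) x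
  -- finite sets
  have hconv : ∀ m b : ℕ, ({d : ℕ | d ≡ b [MOD m] ∧ d ∈ D} ∩ Set.Ioc x (x + n)).ncard =
      #((Ioc x (x + n)).filter fun y => y ≡ b [MOD m] ∧ y ∈ D) := by
    intro m b
    rw [← Set.ncard_coe_finset]
    congr 1
    ext y
    simp only [coe_filter, mem_Ioc, Set.mem_inter_iff, Set.mem_Ioc, Set.mem_ofPred_eq]
    tauto
  rw [hconv] at h0 h1 h2 ⊢
  have hsub : ∀ i, ((Ioc x (x + n)).filter fun y => y ≡ a + i * q [MOD 3 * q] ∧ y ∈ D) ⊆
      (Ioc x (x + n)).filter fun y => y ≡ a [MOD q] ∧ y ∈ D := by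
    intro i y hy
    rw [mem_filter] at hy ⊢
    refine ⟨hy.1, ?_, hy.2.2⟩
    have h3 : y ≡ a + i * q [MOD q] := hy.2.1.of_dvd (dvd_mul_left _ _)
    have h4 : (a + i * q) % q = a % q := Nat.add_mul_mod_self_right _ _ _
    exact h3.trans h4
  have hdis : ∀ i < 3, ∀ j < 3, i ≠ j →
      Disjoint ((Ioc x (x + n)).filter fun y => y ≡ a + i * q [MOD 3 * q] ∧ y ∈ D)
        ((Ioc x (x + n)).filter fun y => y ≡ a + j * q [MOD 3 * q] ∧ y ∈ D) := by
    intro i hi j hj hij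
    rw [disjoint_left]
    intro y hy hy'
    rw [mem_filter] at hy hy'
    have h3 : a + i * q ≡ a + j * q [MOD 3 * q] := hy.2.1.symm.trans hy'.2.1
    have h4 : i * q ≡ j * q [MOD 3 * q] := Nat.ModEq.add_left_cancel' a h3
    have h5 : i ≡ j [MOD 3] := Nat.ModEq.mul_right_cancel' hq.ne' h4
    have h6 : i % 3 = j % 3 := h5
    omega
  have hsum : #((Ioc x (x + n)).filter fun y => y ≡ a + 0 * q [MOD 3 * q] ∧ y ∈ D) +
      #((Ioc x (x + n)).filter fun y => y ≡ a + 1 * q [MOD 3 * q] ∧ y ∈ D) +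
      #((Ioc x (x + n)).filter fun y => y ≡ a + 2 * q [MOD 3 * q] ∧ y ∈ D) ≤
      #((Ioc x (x + n)).filter fun y => y ≡ a [MOD q] ∧ y ∈ D) := by
    rw [← card_union_of_disjoint (hdis 0 (by norm_num) 1 (by norm_num) (by norm_num)),
      ← card_union_of_disjoint (disjoint_union_left.2
        ⟨hdis 0 (by norm_num) 2 (by norm_num) (by norm_num),
          hdis 1 (by norm_num) 2 (by norm_num) (by norm_num)⟩)]
    exact card_le_card (union_subset (union_subset (hsub 0) (hsub 1)) (hsub 2))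
  have hsumR : (#((Ioc x (x + n)).filter fun y => y ≡ a + 0 * q [MOD 3 * q] ∧ y ∈ D) : ℝ) +
      #((Ioc x (x + n)).filter fun y => y ≡ a + 1 * q [MOD 3 * q] ∧ y ∈ D) +
      #((Ioc x (x + n)).filter fun y => y ≡ a + 2 * q [MOD 3 * q] ∧ y ∈ D) ≤
      #((Ioc x (x + n)).filter fun y => y ≡ a [MOD q] ∧ y ∈ D) := by exact_mod_cast hsum
  have hid : (s 0 + s 1 + s 2 - e) * (n : ℝ) =
      (s 0 - e / 3) * n + (s 1 - e / 3) * n + (s 2 - e / 3) * n := by ring
  rw [hid]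
  linarith

/-- `lcm q 3` for even `q` -/
theorem lcm_three (q : ℕ) (hq : 0 < q) (hq2 : Even q) :
    0 < q.lcm 3 ∧ 6 ∣ q.lcm 3 ∧ (q.lcm 3 = q ∨ q.lcm 3 = 3 * q) := by
  refine ⟨Nat.lcm_pos hq (by norm_num), ?_, ?_⟩
  · have h2 : 2 ∣ q.lcm 3 := hq2.two_dvd.trans (Nat.dvd_lcm_left _ _)
    have h3 : 3 ∣ q.lcm 3 := Nat.dvd_lcm_right _ _
    omega
  · by_cases h3 : 3 ∣ q
    · left
      exact Nat.lcm_eq_left h3
    · right
      have h4 : Nat.Coprime q 3 := ((Nat.Prime.coprime_iff_not_dvd Nat.prime_three).2 h3).symm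
      rw [h4.lcm_eq_mul, mul_comm]

/-- from the modulus `lcm q 3` to the modulus `q` -/
theorem Share.of_lcm {D : Set ℕ} {q : ℕ} (hq : 0 < q) (hq2 : Even q) (t : ℝ)
    (h : ∀ a : ℕ, Even a → Share D (q.lcm 3) a (t / (q.lcm 3 : ℕ))) (a : ℕ) (ha : Even a) :
    Share D q a (t / q) := by
  obtain ⟨-, -, h3 | h3⟩ := lcm_three q hq hq2
  · rw [h3] at h
    exact h a ha
  · rw [h3] at h
    have h4 := Share.three hq (s := fun _ => t / ((3 * q : ℕ) : ℝ)) (a := a) fun i _ =>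
      h (a + i * q) (ha.add (hq2.mul_left i))
    have h5 : t / ((3 * q : ℕ) : ℝ) + t / ((3 * q : ℕ) : ℝ) + t / ((3 * q : ℕ) : ℝ) = t / q := by
      have : (q : ℝ) ≠ 0 := by exact_mod_cast hq.ne'
      push_cast
      field_simp
      ring
    rwa [h5] at h4

/-- **few exceptions, or a third of every class** -/
theorem power {k : ℕ} (hk : 0 < k) {D : Set ℕ} (hD : HitsBins 4 k D) (h0 : 0 ∉ D) (e : ℝ)
    (he : 0 < e) : ∃ c : ℝ, 0 < c ∧ ∃ C : ℝ, ∀ q : ℕ, 0 < q → Even q →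
      Few D c C (q.lcm 3) ∨ ∀ a : ℕ, Even a → Share D q a ((1 / 3 - e) / q) := by
  obtain ⟨c, hc, C, h⟩ := third_power hk hD h0 e he
  refine ⟨c, hc, C, fun q hq hq2 => ?_⟩
  obtain ⟨h1, h2, -⟩ := lcm_three q hq hq2
  rcases h _ h1 h2 with h3 | h3
  · exact Or.inl h3
  · exact Or.inr fun a ha => Share.of_lcm hq hq2 _ h3 a ha

/-- few exceptions for some modulus, or a third of every class -/
theorem third_global {k : ℕ} (hk : 0 < k) {D : Set ℕ} (hD : HitsBins 4 k D) (h0 : 0 ∉ D) :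
    (∃ q : ℕ, 0 < q ∧ ∃ c : ℝ, 0 < c ∧ ∃ C : ℝ, Few D c C q) ∨
      ∀ q : ℕ, 0 < q → Even q → ∀ a : ℕ, Even a → Share D q a (1 / 3 / (q : ℝ)) := by
  by_cases h : ∃ q : ℕ, 0 < q ∧ ∃ c : ℝ, 0 < c ∧ ∃ C : ℝ, Few D c C q
  · exact Or.inl h
  · refine Or.inr fun q hq hq2 a ha => Share.of_forall fun e he => ?_
    have hqR : (0 : ℝ) < q := by exact_mod_cast hq
    obtain ⟨c, hc, C, h1⟩ := power hk hD h0 (e * q) (by positivity)
    rcases h1 q hq hq2 with h2 | h2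
    · exact absurd ⟨_, (lcm_three q hq hq2).1, c, hc, C, h2⟩ h
    · have h3 := h2 a ha
      have h4 : (1 / 3 - e * q) / (q : ℝ) = 1 / 3 / (q : ℝ) - e := by
        field_simp
      rwa [h4] at h3

/-- few exceptions for some modulus, or a third of every even class and half of the multiples of every
even number -/
theorem globally {k : ℕ} (hk : 0 < k) {D : Set ℕ} (hD : HitsBins 4 k D) (h0 : 0 ∉ D) :
    (∃ q : ℕ, 0 < q ∧ ∃ c : ℝ, 0 < c ∧ ∃ C : ℝ, Few D c C q) ∨ ∀ q : ℕ, 0 < q → Even q →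
      Share D q 0 (1 / 2 / (q : ℝ)) ∧ ∀ a : ℕ, Even a → Share D q a (1 / 3 / (q : ℝ)) := by
  rcases third_global hk hD h0 with h | h
  · exact Or.inl h
  · exact Or.inr fun q hq hq2 => ⟨Pool.Agent.HALF.half_even (k := k)
      (fun E hE h3 => Pool.Agent.HOM.half_key E k hE h3) hD h q hq hq2, h q hq hq2⟩

end Pool.Agent.Lib_helper31.PS
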