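import Mathlib

/-!
# Closed walks of length four in a symmetric relation
-/

set_option autoImplicit false

namespace Pool.Agent.Lib_helper31.PS

open Finset

theorem sym_sum (s : Finset ℕ) (g : ℕ → ℕ → ℝ) (h0 : ∀ i j, 0 ≤ g i j) (hs : ∀ i j, g i j = g j i) :
    ∑ i ∈ s, ∑ j ∈ s, g i j ≤ 2 * ∑ i ∈ s, ∑ j ∈ s, if i ≤ j then g i j else 0 := by
  have h1 : ∑ i ∈ s, ∑ j ∈ s, g i j ≤ ∑ i ∈ s, ∑ j ∈ s,
      ((if i ≤ j then g i j else 0) + if j ≤ i then g j i else 0) := by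
    refine sum_le_sum fun i _ => sum_le_sum fun j _ => ?_
    by_cases h : i ≤ j
    · rw [if_pos h]
      split_ifs
      · linarith [h0 j i]
      · linarith
    · rw [if_neg h, if_pos (by omega), hs i j]
      linarith
  have h2 : ∑ i ∈ s, ∑ j ∈ s, ((if i ≤ j then g i j else 0) + if j ≤ i then g j i else 0) =
      2 * ∑ i ∈ s, ∑ j ∈ s, if i ≤ j then g i j else 0 := by
    simp_rw [sum_add_distrib]
    have h3 : ∑ i ∈ s, ∑ j ∈ s, (if j ≤ i then g j i else 0) =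
        ∑ i ∈ s, ∑ j ∈ s, if i ≤ j then g i j else 0 := sum_comm
    rw [h3]
    ring
  rw [← h2]
  exact h1

/-- **closed walks of length four** -/
theorem walks (s : Finset ℕ) (e : ℕ → ℕ → ℝ) (h0 : ∀ i j, 0 ≤ e i j) (hs : ∀ i j, e i j = e j i) :
    (∑ i ∈ s, ∑ k ∈ s, e i k) ^ 4 ≤ (#s : ℝ) ^ 4 * (4 * ∑ i ∈ s, ∑ j ∈ s, ∑ k ∈ s, ∑ l ∈ s,
      if i ≤ j ∧ k ≤ l then e i k * e k j * (e j l * e l i) else 0) := by
  set N := ∑ i ∈ s, ∑ k ∈ s, e i k with hN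
  let cod : ℕ → ℕ → ℝ := fun i j => ∑ k ∈ s, e i k * e k j
  set T := ∑ i ∈ s, ∑ j ∈ s, cod i j with hT
  have hcod0 : ∀ i j, 0 ≤ cod i j := fun i j => sum_nonneg fun k _ => mul_nonneg (h0 _ _) (h0 _ _)
  have hcods : ∀ i j, cod i j = cod j i := by
    intro i j
    show ∑ k ∈ s, e i k * e k j = ∑ k ∈ s, e j k * e k i
    refine sum_congr rfl fun k _ => ?_
    rw [hs i k, hs k j]
    ring
  have hTd : T = ∑ k ∈ s, (∑ i ∈ s, e i k) ^ 2 := by
    rw [hT]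
    show ∑ i ∈ s, ∑ j ∈ s, ∑ k ∈ s, e i k * e k j = _
    have h1 : ∀ k ∈ s, (∑ i ∈ s, e i k) ^ 2 = ∑ i ∈ s, ∑ j ∈ s, e i k * e k j := by
      intro k _
      rw [sq, sum_mul_sum]
      refine sum_congr rfl fun i _ => sum_congr rfl fun j _ => ?_
      rw [hs j k]
    rw [sum_congr rfl h1, sum_comm]
    have h2 : ∀ j ∈ s, ∑ i ∈ s, ∑ k ∈ s, e i k * e k j = ∑ k ∈ s, ∑ i ∈ s, e i k * e k j :=
      fun j _ => sum_comm
    rw [sum_congr rfl h2, sum_comm]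
    exact sum_congr rfl fun k _ => sum_comm
  have hN2 : N ^ 2 ≤ #s * T := by
    have h1 : N = ∑ k ∈ s, ∑ i ∈ s, e i k := by
      rw [hN]
      exact sum_comm
    rw [h1, hTd]
    exact sq_sum_le_card_mul_sum_sq
  have hT2 : T ^ 2 ≤ (#s : ℝ) ^ 2 * ∑ i ∈ s, ∑ j ∈ s, cod i j ^ 2 := by
    have h1 := sq_sum_le_card_mul_sum_sq (s := s ×ˢ s) (f := fun p => cod p.1 p.2)
    rw [sum_product, sum_product, card_product] at h1
    push_cast at h1
    rw [sq (#s : ℝ)]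
    exact h1
  have hH : ∑ i ∈ s, ∑ j ∈ s, cod i j ^ 2 ≤ 4 * ∑ i ∈ s, ∑ j ∈ s, ∑ k ∈ s, ∑ l ∈ s,
      if i ≤ j ∧ k ≤ l then e i k * e k j * (e j l * e l i) else 0 := by
    have h1 := sym_sum s (fun i j => cod i j ^ 2) (fun i j => sq_nonneg _)
      (fun i j => by show cod i j ^ 2 = cod j i ^ 2; rw [hcods])
    refine h1.trans ?_
    have h2 : ∀ i j, cod i j ^ 2 ≤ 2 * ∑ k ∈ s, ∑ l ∈ s,
        if k ≤ l then e i k * e k j * (e j l * e l i) else 0 := by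
      intro i j
      have h3 : cod i j ^ 2 = ∑ k ∈ s, ∑ l ∈ s, e i k * e k j * (e j l * e l i) := by
        rw [sq]
        show (∑ k ∈ s, e i k * e k j) * (∑ k ∈ s, e i k * e k j) = _
        rw [sum_mul_sum]
        refine sum_congr rfl fun k _ => sum_congr rfl fun l _ => ?_
        rw [hs i l, hs l j]
        ring
      rw [h3]
      refine sym_sum s (fun k l => e i k * e k j * (e j l * e l i))
        (fun k l => mul_nonneg (mul_nonneg (h0 _ _) (h0 _ _)) (mul_nonneg (h0 _ _) (h0 _ _)))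
        (fun k l => ?_)
      show e i k * e k j * (e j l * e l i) = e i l * e l j * (e j k * e k i)
      rw [hs i k, hs k j, hs j l, hs l i]
      ring
    have h4 : ∑ i ∈ s, ∑ j ∈ s, (if i ≤ j then cod i j ^ 2 else 0) ≤
        2 * ∑ i ∈ s, ∑ j ∈ s, ∑ k ∈ s, ∑ l ∈ s,
          if i ≤ j ∧ k ≤ l then e i k * e k j * (e j l * e l i) else 0 := by
      rw [mul_sum]
      refine sum_le_sum fun i _ => ?_
      rw [mul_sum]
      refine sum_le_sum fun j _ => ?_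
      by_cases h : i ≤ j
      · rw [if_pos h]
        refine (h2 i j).trans (le_of_eq ?_)
        congr 1
        refine sum_congr rfl fun k _ => sum_congr rfl fun l _ => ?_
        simp only [h, true_and]
      · rw [if_neg h]
        have h5 : ∑ k ∈ s, ∑ l ∈ s,
            (if i ≤ j ∧ k ≤ l then e i k * e k j * (e j l * e l i) else 0) = 0 := by
          refine sum_eq_zero fun k _ => sum_eq_zero fun l _ => ?_
          rw [if_neg fun hh => h hh.1]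
        rw [h5, mul_zero]
    linarith
  have hT0 : 0 ≤ T := sum_nonneg fun i _ => sum_nonneg fun j _ => hcod0 i j
  calc N ^ 4 = (N ^ 2) ^ 2 := by ring
    _ ≤ (#s * T) ^ 2 := pow_le_pow_left₀ (sq_nonneg _) hN2 2
    _ = (#s : ℝ) ^ 2 * T ^ 2 := by ring
    _ ≤ (#s : ℝ) ^ 2 * ((#s : ℝ) ^ 2 * ∑ i ∈ s, ∑ j ∈ s, cod i j ^ 2) :=
      mul_le_mul_of_nonneg_left hT2 (by positivity)
    _ = (#s : ℝ) ^ 4 * ∑ i ∈ s, ∑ j ∈ s, cod i j ^ 2 := by ring
    _ ≤ _ := mul_le_mul_of_nonneg_left hH (by positivity)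

end Pool.Agent.Lib_helper31.PS
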