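import Pool.Agent.Lib_helper31.PS.Base
import Pool.Agent.Lib_helper31.PS.Cube
import Pool.Agent.Lib_helper31.PS.Walks
import Pool.Agent.Lib_helper23.ES.Main

/-!
# Few quadruples of indices
-/

set_option autoImplicit false

namespace Pool.Agent.Lib_helper31.PS

open Finset Pool.Agent.Lib_helper23.ES

/-- the integers that are members of `D` -/
def GZ (D : Set ℕ) (z : ℤ) : Prop := ∃ d ∈ D, (d : ℤ) = z

theorem GZ_pos {D : Set ℕ} (h0 : 0 ∉ D) (z : ℤ) (h : GZ D z) : 0 < z := by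
  obtain ⟨d, hd, rfl⟩ := h
  have : d ≠ 0 := fun h => h0 (h ▸ hd)
  omega

theorem GZ_nat {D : Set ℕ} (d : ℕ) : GZ D (d : ℤ) ↔ d ∈ D := by
  constructor
  · rintro ⟨d', hd', h4⟩
    have : d' = d := by exact_mod_cast h4
    rwa [this] at hd'
  · exact fun h => ⟨d, h, rfl⟩

theorem NG_nat {D : Set ℕ} (h0 : 0 ∉ D) {u v : ℤ} (d : ℕ) (hd : v - u = d) (hd0 : 0 < d) (h : d ∉ D) :
    NG (GZ D) u v := by
  refine ⟨by omega, fun h1 => h ?_, fun h1 => ?_⟩
  · rw [hd] at h1
    exact (GZ_nat d).1 h1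
  · have := GZ_pos h0 _ h1
    omega

theorem real_aux {C c e : ℝ} {M : ℕ} (hM0 : 0 < M) (hC : 0 < C) (hc : 0 < c)
    (hM : C * 256 * (M : ℝ) ^ (-c) ≤ e) (α : ℝ) (h1 : (M : ℝ) ≤ α) (h2 : α ≤ 4 * M) :
    C * α ^ (3 + 1) * α ^ (-c) ≤ e * (M : ℝ) ^ 4 := by
  have hMR : (0 : ℝ) < M := by exact_mod_cast hM0
  have hα : 0 < α := hMR.trans_le h1
  calc C * α ^ (3 + 1) * α ^ (-c) ≤ C * (4 * M : ℝ) ^ (3 + 1) * (M : ℝ) ^ (-c) := by
        refine mul_le_mul (mul_le_mul_of_nonneg_left (pow_le_pow_left₀ hα.le h2 _) hC.le) ?_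
          (by positivity) (by positivity)
        exact Real.rpow_le_rpow_of_nonpos hMR h1 (by linarith)
    _ = C * 256 * (M : ℝ) ^ (-c) * (M : ℝ) ^ 4 := by ring
    _ ≤ e * (M : ℝ) ^ 4 := mul_le_mul_of_nonneg_right hM (by positivity)

/-- **four bins**: few quadruples of indices -/
theorem few_index {D : Set ℕ} (h0 : 0 ∉ D)
    (hfew : ∃ c : ℝ, 0 < c ∧ ∃ C : ℝ, 0 < C ∧ ∀ (r : ℕ) (A : Finset ℤ),
      Cnd r A → 0 < #A → K (NG (GZ D)) (r + 1) A ≤ C * (#A : ℝ) ^ (r + 1) * (#A : ℝ) ^ (-c))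
    (e : ℝ) (he : 0 < e) : ∃ m : ℕ, ∀ (R : ℕ) (u : ℕ → ℕ), 0 < R → 6 ∣ R →
      (∀ i j, i < j → j ≤ m → u i < u j) → (∀ i j, i ≤ j → j ≤ m → 6 ∣ u j - u i) →
      (∀ i j, i ≤ j → j ≤ m → R + (u j - u i) ∉ D) → ∀ w : ℕ, 0 < w → Even w →
      ∀ Q : Finset (ℕ × ℕ × ℕ × ℕ), (∀ p ∈ Q, p.1 ≤ p.2.1 ∧ p.2.1 ≤ m ∧ p.2.2.1 ≤ p.2.2.2 ∧
        p.2.2.2 ≤ m ∧ w + (u p.1 - u 0) + (u p.2.2.1 - u 0) ∉ D ∧
        w + R + (u p.2.1 - u 0) + (u p.2.2.1 - u 0) ∉ D ∧
        w + R + (u p.1 - u 0) + (u p.2.2.2 - u 0) ∉ D ∧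
        w + 2 * R + (u p.2.1 - u 0) + (u p.2.2.2 - u 0) ∉ D) →
      (#Q : ℝ) ≤ e * ((m + 1 : ℕ) : ℝ) ^ 4 := by
  classical
  obtain ⟨c, hc, C, hC, hfew⟩ := hfew
  -- choice of `m`
  obtain ⟨M, hM0, hM⟩ : ∃ M : ℕ, 0 < M ∧ C * 256 * (M : ℝ) ^ (-c) ≤ e := by
    have h1 : Filter.Tendsto (fun x : ℝ => x ^ (-c)) Filter.atTop (nhds 0) :=
      tendsto_rpow_neg_atTop hc
    have h2 := (h1.comp tendsto_natCast_atTop_atTop).const_mul (C * 256)
    rw [mul_zero] at h2
    have h3 := (h2.eventually (ge_mem_nhds he)).and (Filter.eventually_gt_atTop 0)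
    obtain ⟨M, hM1, hM2⟩ := h3.exists
    exact ⟨M, hM2, hM1⟩
  refine ⟨M - 1, fun R u hR0 hR6 hu hu6 hB w hw0 hw Q hQ => ?_⟩
  have hM1 : M - 1 + 1 = M := by omega
  rw [hM1]
  let t : ℕ → ℕ := fun i => u i - u 0
  have hu0 : ∀ i, i ≤ M - 1 → u 0 ≤ u i := by
    intro i hi
    rcases Nat.eq_zero_or_pos i with rfl | h
    · exact le_rfl
    · exact (hu 0 i h hi).le
  have ht6 : ∀ i, i ≤ M - 1 → 6 ∣ t i := fun i hi => hu6 0 i (Nat.zero_le _) hi
  have htlt : ∀ i j, i < j → j ≤ M - 1 → t i < t j := by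
    intro i j hij hj
    have h1 := hu i j hij hj
    have h2 := hu0 i (by omega)
    show u i - u 0 < u j - u 0
    omega
  have hdiff : ∀ i j, i ≤ j → j ≤ M - 1 → u j - u i = t j - t i := by
    intro i j hij hj
    have h1 := hu0 i (by omega)
    show u j - u i = u j - u 0 - (u i - u 0)
    omega
  have htle : ∀ i j, i ≤ j → j ≤ M - 1 → t i ≤ t j := by
    intro i j hij hj
    rcases hij.lt_or_eq with h | rfl
    · exact (htlt i j h hj).le
    · exact le_rfl
  have hinj : ∀ i j, i ≤ M - 1 → j ≤ M - 1 → t i = t j → i = j := by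
    intro i j hi hj h
    rcases lt_trichotomy i j with h1 | h1 | h1
    · have := htlt i j h1 hj
      omega
    · exact h1
    · have := htlt j i h1 hi
      omega
  -- the four bins
  let f1 : ℕ → ℤ := fun j => -(R : ℤ) - t j
  let f2 : ℕ → ℤ := fun i => -(t i : ℤ)
  let f3 : ℕ → ℤ := fun k => (w : ℤ) + t k
  let f4 : ℕ → ℤ := fun l => (w : ℤ) + R + t l
  set A := (range M).image f1 ∪ (range M).image f2 ∪ (range M).image f3 ∪ (range M).image f4 with hA
  have hr : ∀ i, i ≤ M - 1 → i ∈ range M := fun i hi => mem_range.2 (by omega)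
  have m1 : ∀ i, i ≤ M - 1 → f1 i ∈ A := fun i hi => by
    rw [hA]
    exact mem_union_left _ (mem_union_left _ (mem_union_left _ (mem_image_of_mem _ (hr i hi))))
  have m2 : ∀ i, i ≤ M - 1 → f2 i ∈ A := fun i hi => by
    rw [hA]
    exact mem_union_left _ (mem_union_left _ (mem_union_right _ (mem_image_of_mem _ (hr i hi))))
  have m3 : ∀ i, i ≤ M - 1 → f3 i ∈ A := fun i hi => by
    rw [hA]
    exact mem_union_left _ (mem_union_right _ (mem_image_of_mem _ (hr i hi)))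
  have m4 : ∀ i, i ≤ M - 1 → f4 i ∈ A := fun i hi => by
    rw [hA]
    exact mem_union_right _ (mem_image_of_mem _ (hr i hi))
  have hcls : ∀ v ∈ A, (6 : ℤ) ∣ v ∨ (6 : ℤ) ∣ v - w := by
    intro v hv
    rw [hA, mem_union, mem_union, mem_union, mem_image, mem_image, mem_image, mem_image] at hv
    rcases hv with ((⟨i, hi, rfl⟩ | ⟨i, hi, rfl⟩) | ⟨i, hi, rfl⟩) | ⟨i, hi, rfl⟩
    · left
      have h1 := ht6 i (by have := mem_range.1 hi; omega)
      show (6 : ℤ) ∣ -(R : ℤ) - t i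
      omega
    · left
      have h1 := ht6 i (by have := mem_range.1 hi; omega)
      show (6 : ℤ) ∣ -(t i : ℤ)
      omega
    · right
      have h1 := ht6 i (by have := mem_range.1 hi; omega)
      show (6 : ℤ) ∣ (w : ℤ) + t i - w
      omega
    · right
      have h1 := ht6 i (by have := mem_range.1 hi; omega)
      show (6 : ℤ) ∣ (w : ℤ) + R + t i - w
      omega
  have hwZ : Even (w : ℤ) := (Int.even_coe_nat w).2 hw
  have hcnd : Cnd 3 A := by
    refine Or.inr ⟨fun a ha b hb => ?_, Or.inr ⟨rfl, ?_⟩⟩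
    · have e1 : ∀ v ∈ A, Even v := by
        intro v hv
        rcases hcls v hv with h | h
        · exact even_iff_two_dvd.2 ((by norm_num : (2 : ℤ) ∣ 6).trans h)
        · have := (even_iff_two_dvd.2 ((by norm_num : (2 : ℤ) ∣ 6).trans h)).add hwZ
          rwa [sub_add_cancel] at this
      exact (e1 a ha).sub (e1 b hb)
    · rcases (by omega : (w : ℤ) % 3 = 0 ∨ (w : ℤ) % 3 = 1 ∨ (w : ℤ) % 3 = 2) with h | h | h
      · exact ⟨1, fun v hv => by rcases hcls v hv with h' | h' <;> omega⟩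
      · exact ⟨2, fun v hv => by rcases hcls v hv with h' | h' <;> omega⟩
      · exact ⟨1, fun v hv => by rcases hcls v hv with h' | h' <;> omega⟩
  have hAM : M ≤ #A := by
    have h1 : #((range M).image f2) = M := by
      rw [card_image_of_injOn, card_range]
      intro i hi j hj hij
      rw [mem_coe, mem_range] at hi hj
      have h2 : -(t i : ℤ) = -(t j : ℤ) := hij
      exact hinj i j (by omega) (by omega) (by omega)
    calc M = #((range M).image f2) := h1.symm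
      _ ≤ #A := card_le_card (by
        rw [hA]
        exact (subset_union_right.trans subset_union_left).trans subset_union_left)
  have hA0 : 0 < #A := by omega
  have hA4 : #A ≤ 4 * M := by
    have c1 := card_union_le ((range M).image f1 ∪ (range M).image f2 ∪ (range M).image f3)
      ((range M).image f4)
    have c2 := card_union_le ((range M).image f1 ∪ (range M).image f2) ((range M).image f3)
    have c3 := card_union_le ((range M).image f1) ((range M).image f2)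
    have c4 := card_image_le (s := range M) (f := f1)
    have c5 := card_image_le (s := range M) (f := f2)
    have c6 := card_image_le (s := range M) (f := f3)
    have c7 := card_image_le (s := range M) (f := f4)
    rw [card_range] at c4 c5 c6 c7
    rw [hA]
    omega
  have hK := hfew 3 A hcnd hA0
  have hle : #Q ≤ #(Cl (NG (GZ D)) 4 A) := by
    refine card_le_card_of_injOn (fun p => ![f1 p.2.1, f2 p.1, f3 p.2.2.1, f4 p.2.2.2])
      (fun p hp => ?_) (fun p hp p' hp' h => ?_)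
    · obtain ⟨q1, q2, q3, q4, q5, q6, q7, q8⟩ := hQ p hp
      have i1 : p.1 ≤ M - 1 := q1.trans q2
      have i3 : p.2.2.1 ≤ M - 1 := q3.trans q4
      have n12 : NG (GZ D) (f1 p.2.1) (f2 p.1) := by
        have h1 := hB _ _ q1 q2
        rw [hdiff _ _ q1 q2] at h1
        refine NG_nat h0 _ ?_ (by omega) h1
        show -(t p.1 : ℤ) - (-(R : ℤ) - t p.2.1) = ((R + (t p.2.1 - t p.1) : ℕ) : ℤ)
        have := htle _ _ q1 q2
        omega
      have n34 : NG (GZ D) (f3 p.2.2.1) (f4 p.2.2.2) := by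
        have h1 := hB _ _ q3 q4
        rw [hdiff _ _ q3 q4] at h1
        refine NG_nat h0 _ ?_ (by omega) h1
        show (w : ℤ) + R + t p.2.2.2 - (w + t p.2.2.1) = ((R + (t p.2.2.2 - t p.2.2.1) : ℕ) : ℤ)
        have := htle _ _ q3 q4
        omega
      have n23 : NG (GZ D) (f2 p.1) (f3 p.2.2.1) := by
        refine NG_nat h0 _ ?_ (by omega) q5
        show (w : ℤ) + t p.2.2.1 - -(t p.1 : ℤ) = ((w + t p.1 + t p.2.2.1 : ℕ) : ℤ)
        push_cast
        ring
      have n13 : NG (GZ D) (f1 p.2.1) (f3 p.2.2.1) := by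
        refine NG_nat h0 _ ?_ (by omega) q6
        show (w : ℤ) + t p.2.2.1 - (-(R : ℤ) - t p.2.1) = ((w + R + t p.2.1 + t p.2.2.1 : ℕ) : ℤ)
        push_cast
        ring
      have n24 : NG (GZ D) (f2 p.1) (f4 p.2.2.2) := by
        refine NG_nat h0 _ ?_ (by omega) q7
        show (w : ℤ) + R + t p.2.2.2 - -(t p.1 : ℤ) = ((w + R + t p.1 + t p.2.2.2 : ℕ) : ℤ)
        push_cast
        ring
      have n14 : NG (GZ D) (f1 p.2.1) (f4 p.2.2.2) := by
        refine NG_nat h0 _ ?_ (by omega) q8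
        show (w : ℤ) + R + t p.2.2.2 - (-(R : ℤ) - t p.2.1) =
          ((w + 2 * R + t p.2.1 + t p.2.2.2 : ℕ) : ℤ)
        push_cast
        ring
      rw [mem_coe, mem_Cl]
      constructor
      · intro i
        fin_cases i
        · exact m1 _ q2
        · exact m2 _ i1
        · exact m3 _ i3
        · exact m4 _ q4
      · intro i j hij
        fin_cases i <;> fin_cases j <;> first
          | exact absurd rfl hij
          | exact n12 | exact n13 | exact n14 | exact n23 | exact n24 | exact n34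
          | exact NG_symm _ _ _ n12 | exact NG_symm _ _ _ n13 | exact NG_symm _ _ _ n14
          | exact NG_symm _ _ _ n23 | exact NG_symm _ _ _ n24 | exact NG_symm _ _ _ n34
    · obtain ⟨q1, q2, q3, q4, -⟩ := hQ p hp
      obtain ⟨q1', q2', q3', q4', -⟩ := hQ p' hp'
      have k0 : -(R : ℤ) - t p.2.1 = -(R : ℤ) - t p'.2.1 := congrFun h 0
      have k1 : -(t p.1 : ℤ) = -(t p'.1 : ℤ) := congrFun h 1
      have k2 : (w : ℤ) + t p.2.2.1 = w + t p'.2.2.1 := congrFun h 2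
      have k3 : (w : ℤ) + R + t p.2.2.2 = w + R + t p'.2.2.2 := congrFun h 3
      have l0 := hinj p.2.1 p'.2.1 q2 q2' (by omega)
      have l1 := hinj p.1 p'.1 (q1.trans q2) (q1'.trans q2') (by omega)
      have l2 := hinj p.2.2.1 p'.2.2.1 (q3.trans q4) (q3'.trans q4') (by omega)
      have l3 := hinj p.2.2.2 p'.2.2.2 q4 q4' (by omega)
      exact Prod.ext l1 (Prod.ext l0 (Prod.ext l2 l3))
  have hAR : (M : ℝ) ≤ (#A : ℝ) := by exact_mod_cast hAM
  have hAR4 : (#A : ℝ) ≤ 4 * M := by exact_mod_cast hA4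
  have hleR : (#Q : ℝ) ≤ (#(Cl (NG (GZ D)) 4 A) : ℝ) := by exact_mod_cast hle
  exact hleR.trans (hK.trans (real_aux hM0 hC hc hM _ hAR hAR4))

end Pool.Agent.Lib_helper31.PS
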