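import Pool.Agent.Lib_helper31.PS.Index

/-!
# A third of every even class, or few exceptions among the multiples of `q`: the windows
-/

set_option autoImplicit false

namespace Pool.Agent.Lib_helper31.PS

open Finset Pool.Agent.Lib_helper23.ES Pool.Agent.Lib_helper23.PG

theorem shift_le (D : Set ℕ) [DecidablePred (· ∈ D)] (q a n x s : ℕ) (hs : q ∣ s) :
    #(((Ioc x (x + n)).filter fun y => y ≡ a [MOD q]).filter fun w => w + s ∈ D) ≤
      #((Ioc x (x + n)).filter fun y => y ≡ a [MOD q] ∧ y ∈ D) + s := by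
  classical
  have h1 : #(((Ioc x (x + n)).filter fun y => y ≡ a [MOD q]).filter fun w => w + s ∈ D) ≤
      #(((Ioc x (x + n)).filter fun y => y ≡ a [MOD q] ∧ y ∈ D) ∪ Ioc (x + n) (x + n + s)) := by
    refine card_le_card_of_injOn (fun w => w + s) (fun w hw => ?_) (fun w _ w' _ h => ?_)
    · rw [mem_coe, mem_filter, mem_filter, mem_Ioc] at hw
      obtain ⟨⟨⟨w1, w2⟩, w3⟩, w4⟩ := hw
      dsimp only
      rw [mem_coe, mem_union, mem_filter, mem_Ioc, mem_Ioc]
      by_cases c : w + s ≤ x + n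
      · refine Or.inl ⟨⟨by omega, c⟩, ?_, w4⟩
        have h2 : w + s ≡ a + 0 [MOD q] := w3.add ((Nat.modEq_zero_iff_dvd).2 hs)
        rwa [add_zero] at h2
      · exact Or.inr ⟨by omega, by omega⟩
    · dsimp only at h
      omega
  refine h1.trans ((card_union_le _ _).trans ?_)
  rw [Nat.card_Ioc]
  omega

/-- the triples of a point `w` -/
noncomputable def tri (D : Set ℕ) (R : ℕ) (t : ℕ → ℕ) (w i k : ℕ) : ℝ := by
  classical
  exact if w + t i + t k ∉ D ∧ w + R + t i + t k ∉ D ∧ w + 2 * R + t i + t k ∉ D then 1 else 0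

theorem tri_or (D : Set ℕ) (R : ℕ) (t : ℕ → ℕ) (w i k : ℕ) :
    tri D R t w i k = 0 ∨ (tri D R t w i k = 1 ∧ w + t i + t k ∉ D ∧ w + R + t i + t k ∉ D ∧
      w + 2 * R + t i + t k ∉ D) := by
  unfold tri
  split_ifs with h
  · exact Or.inr ⟨rfl, h⟩
  · exact Or.inl rfl

theorem tri_symm (D : Set ℕ) (R : ℕ) (t : ℕ → ℕ) (w i k : ℕ) : tri D R t w i k = tri D R t w k i := by
  unfold tri
  have h1 : w + t i + t k = w + t k + t i := by omega
  have h2 : w + R + t i + t k = w + R + t k + t i := by omega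
  have h3 : w + 2 * R + t i + t k = w + 2 * R + t k + t i := by omega
  rw [h1, h2, h3]

theorem tri_nonneg (D : Set ℕ) (R : ℕ) (t : ℕ → ℕ) (w i k : ℕ) : 0 ≤ tri D R t w i k := by
  rcases tri_or D R t w i k with h | h
  · rw [h]
  · rw [h.1]
    exact zero_le_one

/-- few pairs of indices with a triple outside `D` -/
theorem tri_few {D : Set ℕ} (m R : ℕ) (t : ℕ → ℕ) (w : ℕ) (η : ℝ) (hη : 0 ≤ η)
    (h : ∀ Q : Finset (ℕ × ℕ × ℕ × ℕ), (∀ p ∈ Q, p.1 ≤ p.2.1 ∧ p.2.1 ≤ m ∧ p.2.2.1 ≤ p.2.2.2 ∧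
        p.2.2.2 ≤ m ∧ w + t p.1 + t p.2.2.1 ∉ D ∧ w + R + t p.2.1 + t p.2.2.1 ∉ D ∧
        w + R + t p.1 + t p.2.2.2 ∉ D ∧ w + 2 * R + t p.2.1 + t p.2.2.2 ∉ D) →
      (#Q : ℝ) ≤ η ^ 4 / 4 * ((m + 1 : ℕ) : ℝ) ^ 4) :
    ∑ i ∈ range (m + 1), ∑ k ∈ range (m + 1), tri D R t w i k ≤ η * ((m + 1 : ℕ) : ℝ) ^ 2 := by
  classical
  have hw := walks (range (m + 1)) (tri D R t w) (tri_nonneg D R t w) (tri_symm D R t w)
  rw [card_range] at hw
  set r := range (m + 1) with hr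
  set P := r ×ˢ r ×ˢ r ×ˢ r with hP
  set Q := P.filter fun p => p.1 ≤ p.2.1 ∧ p.2.2.1 ≤ p.2.2.2 ∧ w + t p.1 + t p.2.2.1 ∉ D ∧
    w + R + t p.2.1 + t p.2.2.1 ∉ D ∧ w + R + t p.1 + t p.2.2.2 ∉ D ∧
      w + 2 * R + t p.2.1 + t p.2.2.2 ∉ D with hQ
  have hQc := h Q (by
    intro p hp
    rw [hQ, mem_filter, hP, mem_product, mem_product, mem_product, hr, mem_range, mem_range,
      mem_range, mem_range] at hp
    obtain ⟨⟨p1, p2, p3, p4⟩, p5, p6, p7⟩ := hp
    exact ⟨p5, by omega, p6, by omega, p7⟩)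
  have hsum : ∑ i ∈ r, ∑ j ∈ r, ∑ k ∈ r, ∑ l ∈ r, (if i ≤ j ∧ k ≤ l then
      tri D R t w i k * tri D R t w k j * (tri D R t w j l * tri D R t w l i) else 0) ≤ #Q := by
    have h1 : (#Q : ℝ) = ∑ i ∈ r, ∑ j ∈ r, ∑ k ∈ r, ∑ l ∈ r, (if i ≤ j ∧ k ≤ l ∧
        w + t i + t k ∉ D ∧ w + R + t j + t k ∉ D ∧ w + R + t i + t l ∉ D ∧
          w + 2 * R + t j + t l ∉ D then (1 : ℝ) else 0) := by
      rw [hQ, card_filter, hP]
      push_cast
      rw [sum_product]
      refine sum_congr rfl fun i _ => ?_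
      rw [sum_product]
      refine sum_congr rfl fun j _ => ?_
      rw [sum_product]
    rw [h1]
    refine sum_le_sum fun i _ => sum_le_sum fun j _ => sum_le_sum fun k _ => sum_le_sum fun l _ => ?_
    by_cases hc : i ≤ j ∧ k ≤ l
    · rw [if_pos hc]
      rcases tri_or D R t w i k with g1 | ⟨g1, a1, -, -⟩
      · rw [g1, zero_mul, zero_mul]
        split_ifs
        · exact zero_le_one
        · exact le_rfl
      rcases tri_or D R t w k j with g2 | ⟨g2, -, a2, -⟩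
      · rw [g2, mul_zero, zero_mul]
        split_ifs
        · exact zero_le_one
        · exact le_rfl
      rcases tri_or D R t w j l with g3 | ⟨g3, -, -, a3⟩
      · rw [g3, zero_mul, mul_zero]
        split_ifs
        · exact zero_le_one
        · exact le_rfl
      rcases tri_or D R t w l i with g4 | ⟨g4, -, a4, -⟩
      · rw [g4, mul_zero, mul_zero]
        split_ifs
        · exact zero_le_one
        · exact le_rfl
      have b2 : w + R + t j + t k ∉ D := by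
        have h2 : w + R + t j + t k = w + R + t k + t j := by omega
        rwa [h2]
      have b4 : w + R + t i + t l ∉ D := by
        have h2 : w + R + t i + t l = w + R + t l + t i := by omega
        rwa [h2]
      rw [g1, g2, g3, g4, if_pos (And.intro hc.1 ⟨hc.2, a1, b2, b4, a3⟩), one_mul, one_mul]
    · rw [if_neg hc, if_neg fun hh => hc ⟨hh.1, hh.2.1⟩]
  set N := ∑ i ∈ r, ∑ k ∈ r, tri D R t w i k with hN
  have hN0 : 0 ≤ N := sum_nonneg fun i _ => sum_nonneg fun k _ => tri_nonneg D R t w i k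
  have hM0 : (0 : ℝ) ≤ ((m + 1 : ℕ) : ℝ) ^ 4 := by positivity
  have h2 : N ^ 4 ≤ (η * ((m + 1 : ℕ) : ℝ) ^ 2) ^ 4 := by
    calc N ^ 4 ≤ ((m + 1 : ℕ) : ℝ) ^ 4 * (4 * #Q) := by
          refine hw.trans (mul_le_mul_of_nonneg_left ?_ hM0)
          linarith
      _ ≤ ((m + 1 : ℕ) : ℝ) ^ 4 * (4 * (η ^ 4 / 4 * ((m + 1 : ℕ) : ℝ) ^ 4)) :=
        mul_le_mul_of_nonneg_left (by linarith) hM0
      _ = (η * ((m + 1 : ℕ) : ℝ) ^ 2) ^ 4 := by ring
  exact (pow_le_pow_iff_left₀ hN0 (by positivity) (by norm_num)).1 h2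

/-- from the triples to the share of a class -/
theorem share_of_tri {D : Set ℕ} (q : ℕ) (hq0 : 0 < q) (m R : ℕ) (t : ℕ → ℕ) (hR : q ∣ R)
    (ht : ∀ i, i ≤ m → q ∣ t i) (η : ℝ) (hη : 0 ≤ η) (hη1 : η ≤ 1) (a : ℕ)
    (h : ∀ w : ℕ, 0 < w → w ≡ a [MOD q] →
      ∑ i ∈ range (m + 1), ∑ k ∈ range (m + 1), tri D R t w i k ≤ η * ((m + 1 : ℕ) : ℝ) ^ 2) :
    Share D q a ((1 / 3 - η) / q) := by
  classical
  have hq0R : (0 : ℝ) < q := by exact_mod_cast hq0
  obtain ⟨M, hM⟩ : ∃ M : ℝ, M = ((m + 1 : ℕ) : ℝ) := ⟨_, rfl⟩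
  have hM0 : 0 < M := by
    rw [hM]
    positivity
  rw [← hM] at h
  -- a bound for the shifts
  obtain ⟨Δ, hΔ⟩ : ∃ Δ : ℕ, ∀ i ∈ range (m + 1), t i ≤ Δ :=
    ⟨(range (m + 1)).sup t, fun i hi => le_sup (f := t) hi⟩
  intro e2 he2
  obtain ⟨L, hL⟩ := exists_nat_gt ((2 * (R : ℝ) + 2 * Δ + 1) / e2)
  refine ⟨L, fun n hn x => ?_⟩
  set g := ({d : ℕ | d ≡ a [MOD q] ∧ d ∈ D} ∩ Set.Ioc x (x + n)).ncard with hg
  have hgF : g = #((Ioc x (x + n)).filter fun y => y ≡ a [MOD q] ∧ y ∈ D) := by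
    rw [hg, ← Set.ncard_coe_finset]
    congr 1
    ext y
    simp only [coe_filter, mem_Ioc, Set.mem_inter_iff, Set.mem_Ioc, Set.mem_ofPred_eq]
    tauto
  set W := (Ioc x (x + n)).filter fun y => y ≡ a [MOD q] with hW
  let f : ℕ → ℝ := fun z => if z ∈ D then 1 else 0
  have hf0 : ∀ z, 0 ≤ f z := by
    intro z
    show (0 : ℝ) ≤ if z ∈ D then 1 else 0
    split_ifs
    · exact zero_le_one
    · exact le_rfl
  have hf1 : ∀ z, z ∈ D → f z = 1 := fun z hz => if_pos hz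
  have hsh : ∀ s : ℕ, q ∣ s → ∑ w ∈ W, f (w + s) ≤ (g : ℝ) + s := by
    intro s hs
    have h1 := shift_le D q a n x s hs
    rw [← hgF, ← hW] at h1
    have h2 : ∑ w ∈ W, f (w + s) = #(W.filter fun w => w + s ∈ D) := by
      rw [card_filter]
      push_cast
      rfl
    rw [h2]
    exact_mod_cast h1
  have hpt : ∀ w i k, 1 - tri D R t w i k ≤
      f (w + (t i + t k)) + f (w + (R + (t i + t k))) + f (w + (2 * R + (t i + t k))) := by
    intro w i k
    have k1 := hf0 (w + (t i + t k))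
    have k2 := hf0 (w + (R + (t i + t k)))
    have k3 := hf0 (w + (2 * R + (t i + t k)))
    rcases tri_or D R t w i k with g1 | ⟨g1, -⟩
    · rw [g1]
      have h1 : ¬ (w + t i + t k ∉ D ∧ w + R + t i + t k ∉ D ∧ w + 2 * R + t i + t k ∉ D) := by
        intro hh
        unfold tri at g1
        rw [if_pos hh] at g1
        exact one_ne_zero g1
      have e1 : w + t i + t k = w + (t i + t k) := by omega
      have e2 : w + R + t i + t k = w + (R + (t i + t k)) := by omega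
      have e3 : w + 2 * R + t i + t k = w + (2 * R + (t i + t k)) := by omega
      rw [e1, e2, e3] at h1
      by_cases c1 : w + (t i + t k) ∈ D
      · rw [hf1 _ c1]
        linarith
      by_cases c2 : w + (R + (t i + t k)) ∈ D
      · rw [hf1 _ c2]
        linarith
      by_cases c3 : w + (2 * R + (t i + t k)) ∈ D
      · rw [hf1 _ c3]
        linarith
      exact absurd ⟨c1, c2, c3⟩ h1
    · rw [g1]
      linarith
  -- double counting
  have hlow : (#W : ℝ) * ((1 - η) * M ^ 2) ≤ ∑ w ∈ W, ∑ i ∈ range (m + 1), ∑ k ∈ range (m + 1),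
      (f (w + (t i + t k)) + f (w + (R + (t i + t k))) + f (w + (2 * R + (t i + t k)))) := by
    rw [← nsmul_eq_mul, ← sum_const]
    refine sum_le_sum fun w hw => ?_
    rw [hW, mem_filter, mem_Ioc] at hw
    have h1 := h w (by omega) hw.2
    have h2 : ∑ i ∈ range (m + 1), ∑ k ∈ range (m + 1), (1 - tri D R t w i k) =
        M ^ 2 - ∑ i ∈ range (m + 1), ∑ k ∈ range (m + 1), tri D R t w i k := by
      simp_rw [sum_sub_distrib]
      rw [sum_const, sum_const, card_range, nsmul_eq_mul, nsmul_eq_mul, mul_one, hM]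
      ring
    calc (1 - η) * M ^ 2 ≤ M ^ 2 - ∑ i ∈ range (m + 1), ∑ k ∈ range (m + 1), tri D R t w i k := by
          linarith
      _ = ∑ i ∈ range (m + 1), ∑ k ∈ range (m + 1), (1 - tri D R t w i k) := h2.symm
      _ ≤ _ := sum_le_sum fun i _ => sum_le_sum fun k _ => hpt w i k
  have hup : ∑ w ∈ W, ∑ i ∈ range (m + 1), ∑ k ∈ range (m + 1),
      (f (w + (t i + t k)) + f (w + (R + (t i + t k))) + f (w + (2 * R + (t i + t k)))) ≤
      M ^ 2 * (3 * (g + (2 * R + 2 * Δ))) := by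
    have h1 : ∀ i ∈ range (m + 1), ∀ k ∈ range (m + 1), ∑ w ∈ W,
        (f (w + (t i + t k)) + f (w + (R + (t i + t k))) + f (w + (2 * R + (t i + t k)))) ≤
        3 * (g + (2 * R + 2 * Δ)) := by
      intro i hi k hk
      have ti := ht i (by have := mem_range.1 hi; omega)
      have tk := ht k (by have := mem_range.1 hk; omega)
      have b1 := hΔ i hi
      have b2 := hΔ k hk
      have b1R : (t i : ℝ) ≤ Δ := by exact_mod_cast b1
      have b2R : (t k : ℝ) ≤ Δ := by exact_mod_cast b2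
      have hR0 : (0 : ℝ) ≤ R := Nat.cast_nonneg _
      have s1 := hsh (t i + t k) (dvd_add ti tk)
      have s2 := hsh (R + (t i + t k)) (dvd_add hR (dvd_add ti tk))
      have s3 := hsh (2 * R + (t i + t k)) (dvd_add (hR.mul_left 2) (dvd_add ti tk))
      push_cast at s1 s2 s3
      rw [sum_add_distrib, sum_add_distrib]
      linarith
    rw [sum_comm]
    calc ∑ i ∈ range (m + 1), ∑ w ∈ W, ∑ k ∈ range (m + 1),
          (f (w + (t i + t k)) + f (w + (R + (t i + t k))) + f (w + (2 * R + (t i + t k))))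
        = ∑ i ∈ range (m + 1), ∑ k ∈ range (m + 1), ∑ w ∈ W,
          (f (w + (t i + t k)) + f (w + (R + (t i + t k))) + f (w + (2 * R + (t i + t k)))) :=
          sum_congr rfl fun i _ => sum_comm
      _ ≤ ∑ i ∈ range (m + 1), ∑ k ∈ range (m + 1), 3 * ((g : ℝ) + (2 * R + 2 * Δ)) :=
          sum_le_sum fun i hi => sum_le_sum fun k hk => h1 i hi k hk
      _ = M ^ 2 * (3 * (g + (2 * R + 2 * Δ))) := by
        rw [sum_const, sum_const, card_range, nsmul_eq_mul, nsmul_eq_mul, hM]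
        ring
  have hmain : (#W : ℝ) * (1 - η) ≤ 3 * (g + (2 * R + 2 * Δ)) := by
    have h1 : M ^ 2 * ((#W : ℝ) * (1 - η)) ≤ M ^ 2 * (3 * (g + (2 * R + 2 * Δ))) := by
      have := hlow.trans hup
      linarith
    exact le_of_mul_le_mul_left h1 (by positivity)
  have hWc : (n : ℝ) / q - 1 ≤ #W := by
    have h3 := class_count q a n x hq0
    rw [← hW] at h3
    have h7 : ((n / q : ℕ) : ℝ) ≤ #W := by exact_mod_cast h3
    have h9 : (n : ℝ) / q - 1 ≤ ((n / q : ℕ) : ℝ) := by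
      have h10 : n < q * (n / q + 1) := Nat.lt_mul_div_succ n hq0
      have h11 : (n : ℝ) ≤ q * (((n / q : ℕ) : ℝ) + 1) := by exact_mod_cast h10.le
      rw [sub_le_iff_le_add, div_le_iff₀ hq0R]
      linarith
    linarith
  have hnL : (2 * (R : ℝ) + 2 * Δ + 1) / e2 < n := hL.trans_le (by exact_mod_cast hn)
  rw [div_lt_iff₀ he2] at hnL
  have h1 : ((n : ℝ) / q - 1) * (1 - η) ≤ 3 * (g + (2 * R + 2 * Δ)) :=
    (mul_le_mul_of_nonneg_right hWc (by linarith)).trans hmain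
  have hnq : (0 : ℝ) ≤ (n : ℝ) / q := by positivity
  have h5 : ((1 / 3 - η) / q - e2) * n = (n : ℝ) / q * (1 / 3 - η) - e2 * n := by ring
  rw [h5]
  have h6 : 0 ≤ (n : ℝ) / q * η := by positivity
  have h7 : ((n : ℝ) / q - 1) * (1 - η) = (n : ℝ) / q - (n : ℝ) / q * η - 1 + η := by ring
  rw [h7] at h1
  have h8 : (n : ℝ) / q * (1 / 3 - η) = (n : ℝ) / q / 3 - (n : ℝ) / q * η := by ring
  rw [h8]
  linarith

/-- **few exceptions among the multiples of `q`, or a third of every even class** -/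
theorem third_power {k : ℕ} (hk : 0 < k) {D : Set ℕ} (hD : HitsBins 4 k D) (h0 : 0 ∉ D) (e : ℝ)
    (he : 0 < e) : ∃ c : ℝ, 0 < c ∧ ∃ C : ℝ, ∀ q : ℕ, 0 < q → 6 ∣ q →
      Few D c C q ∨ ∀ a : ℕ, Even a → Share D q a ((1 / 3 - e) / q) := by
  classical
  obtain ⟨η, hηd⟩ : ∃ η, η = min e 1 := ⟨_, rfl⟩
  have hη : 0 < η := by
    rw [hηd]
    exact lt_min he one_pos
  have hη1 : η ≤ 1 := by
    rw [hηd]
    exact min_le_right _ _
  have hηe : η ≤ e := by
    rw [hηd]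
    exact min_le_left _ _
  have hGZ : ∀ d ∈ D, GZ D (d : ℤ) := fun d hd => ⟨d, hd, rfl⟩
  obtain ⟨m, hm⟩ := few_index h0 (few_cliques hk hD hGZ) (η ^ 4 / 4) (by positivity)
  obtain ⟨c, hc, -, C, -, hcube⟩ := cube m
  refine ⟨c, hc, C, fun q hq0 hq => ?_⟩
  by_cases h : Few D c C q
  · exact Or.inl h
  refine Or.inr fun a ha => ?_
  unfold Few at h
  push Not at h
  obtain ⟨n, x, hn, hlt⟩ := h
  obtain ⟨S, hS⟩ : ∃ S : Finset ℕ, S = (Ioc x (x + n)).filter fun d => q ∣ d ∧ d ∉ D := ⟨_, rfl⟩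
  have hSc : ({d : ℕ | q ∣ d ∧ d ∉ D} ∩ Set.Ioc x (x + n)).ncard = #S := by
    rw [hS, ← Set.ncard_coe_finset]
    congr 1
    ext y
    simp only [coe_filter, mem_Ioc, Set.mem_inter_iff, Set.mem_Ioc, Set.mem_ofPred_eq]
    tauto
  rw [hSc] at hlt
  obtain ⟨R, u, hu, hRu⟩ := hcube n x hn S (fun s hs => by
    rw [hS, mem_filter, mem_Ioc] at hs
    exact hs.1) hlt
  have hmem : ∀ i j, i ≤ j → j ≤ m → x < R + (u j - u i) ∧ q ∣ R + (u j - u i) ∧
      R + (u j - u i) ∉ D := by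
    intro i j hij hj
    have h1 := hRu i j hij hj
    rw [hS, mem_filter, mem_Ioc] at h1
    exact ⟨h1.1.1, h1.2.1, h1.2.2⟩
  have hR := hmem 0 0 le_rfl (Nat.zero_le _)
  rw [Nat.sub_self, Nat.add_zero] at hR
  have hqu : ∀ i j, i ≤ j → j ≤ m → q ∣ u j - u i := by
    intro i j hij hj
    exact (Nat.dvd_add_right hR.2.1).1 (hmem i j hij hj).2.1
  have hR0 : 0 < R := by omega
  refine (share_of_tri q hq0 m R (fun i => u i - u 0) hR.2.1 (fun i hi => hqu 0 i (Nat.zero_le _) hi)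
    η hη.le hη1 a fun w hw hwa => ?_).mono ?_
  · refine tri_few m R (fun i => u i - u 0) w η hη.le fun Q hQ => ?_
    have hwe : Even w := by
      have h1 : w ≡ a [MOD 2] := hwa.of_dvd ((by norm_num : 2 ∣ 6).trans hq)
      have h2 : w % 2 = a % 2 := h1
      rw [Nat.even_iff] at ha ⊢
      omega
    exact hm R u hR0 (hq.trans hR.2.1) hu (fun i j hij hj => hq.trans (hqu i j hij hj))
      (fun i j hij hj => (hmem i j hij hj).2.2) w hw hwe Q hQ
  · exact div_le_div_of_nonneg_right (by linarith) (Nat.cast_nonneg _)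

end Pool.Agent.Lib_helper31.PS
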