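import Pool.Agent.Lib_helper31.PS.Final

/-!
# The third, with exceptions counted among consecutive multiples
-/

set_option autoImplicit false

namespace Pool.Agent.Lib_helper31.PS

open Finset Pool.Agent.Lib_helper23.PG Pool.Agent.Lib_helper23.ES

/-- Among any `N` consecutive multiples of `q` at most `C * N ^ (1 - c)` are outside `D`. -/
def FewIn (D : Set ℕ) (c C : ℝ) (q : ℕ) : Prop := ∀ N y : ℕ, 0 < N →
  (({j : ℕ | q * j ∉ D} ∩ Set.Ioc y (y + N)).ncard : ℝ) ≤ C * (N : ℝ) ^ (1 - c)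

/-- **few exceptions among consecutive multiples of `q`, or a third of every even class** -/
theorem third_index {k : ℕ} (hk : 0 < k) {D : Set ℕ} (hD : HitsBins 4 k D) (h0 : 0 ∉ D) (e : ℝ)
    (he : 0 < e) : ∃ c : ℝ, 0 < c ∧ ∃ C : ℝ, ∀ q : ℕ, 0 < q → 6 ∣ q →
      FewIn D c C q ∨ ∀ a : ℕ, Even a → Share D q a ((1 / 3 - e) / q) := by
  classical
  obtain ⟨η, hηd⟩ : ∃ η, η = min e 1 := ⟨_, rfl⟩
  have hη : 0 < η := by
    rw [hηd]
    exact lt_min he one_pos
  have hη1 : η ≤ 1 := by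
    rw [hηd]
    exact min_le_right _ _
  have hηe : η ≤ e := by
    rw [hηd]
    exact min_le_left _ _
  have hGZ : ∀ d ∈ D, GZ D (d : ℤ) := fun d hd => ⟨d, hd, rfl⟩
  obtain ⟨m, hm⟩ := few_index h0 (few_cliques hk hD hGZ) (η ^ 4 / 4) (by positivity)
  obtain ⟨c, hc, -, C, -, hcube⟩ := cube m
  refine ⟨c, hc, C, fun q hq0 hq => ?_⟩
  by_cases h : FewIn D c C q
  · exact Or.inl h
  refine Or.inr fun a ha => ?_
  unfold FewIn at h
  push Not at h
  obtain ⟨n, x, hn, hlt⟩ := h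
  obtain ⟨S, hS⟩ : ∃ S : Finset ℕ, S = (Ioc x (x + n)).filter fun d => q * d ∉ D := ⟨_, rfl⟩
  have hSc : ({j : ℕ | q * j ∉ D} ∩ Set.Ioc x (x + n)).ncard = #S := by
    rw [hS, ← Set.ncard_coe_finset]
    congr 1
    ext y
    simp only [coe_filter, mem_Ioc, Set.mem_inter_iff, Set.mem_Ioc, Set.mem_ofPred_eq]
    tauto
  rw [hSc] at hlt
  obtain ⟨R, u, hu, hRu⟩ := hcube n x hn S (fun s hs => by
    rw [hS, mem_filter, mem_Ioc] at hs
    exact hs.1) hlt
  have hmem : ∀ i j, i ≤ j → j ≤ m → x < R + (u j - u i) ∧ q * (R + (u j - u i)) ∉ D := by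
    intro i j hij hj
    have h1 := hRu i j hij hj
    rw [hS, mem_filter, mem_Ioc] at h1
    exact ⟨h1.1.1, h1.2⟩
  have hR := hmem 0 0 le_rfl (Nat.zero_le _)
  rw [Nat.sub_self, Nat.add_zero] at hR
  have hR0 : 0 < q * R := Nat.mul_pos hq0 (by omega)
  have hu' : ∀ i j, i < j → j ≤ m → q * u i < q * u j := fun i j hij hj =>
    Nat.mul_lt_mul_of_pos_left (hu i j hij hj) hq0
  have hqu : ∀ i j, i ≤ j → j ≤ m → q ∣ q * u j - q * u i := fun i j _ _ =>
    Nat.dvd_sub (dvd_mul_right _ _) (dvd_mul_right _ _)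
  have hmem' : ∀ i j, i ≤ j → j ≤ m → q * R + (q * u j - q * u i) ∉ D := by
    intro i j hij hj
    have h1 := (hmem i j hij hj).2
    rwa [mul_add, Nat.mul_sub] at h1
  refine (share_of_tri q hq0 m (q * R) (fun i => q * u i - q * u 0) (dvd_mul_right _ _)
    (fun i hi => hqu 0 i (Nat.zero_le _) hi) η hη.le hη1 a fun w hw hwa => ?_).mono ?_
  · refine tri_few m (q * R) (fun i => q * u i - q * u 0) w η hη.le fun Q hQ => ?_
    have hwe : Even w := by
      have h1 : w ≡ a [MOD 2] := hwa.of_dvd ((by norm_num : 2 ∣ 6).trans hq)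
      have h2 : w % 2 = a % 2 := h1
      rw [Nat.even_iff] at ha ⊢
      omega
    exact hm (q * R) (fun i => q * u i) hR0 (hq.mul_right R) hu'
      (fun i j hij hj => hq.trans (hqu i j hij hj)) hmem' w hw hwe Q hQ
  · exact div_le_div_of_nonneg_right (by linarith) (Nat.cast_nonneg _)

/-- the same for all even moduli -/
theorem power_index {k : ℕ} (hk : 0 < k) {D : Set ℕ} (hD : HitsBins 4 k D) (h0 : 0 ∉ D) (e : ℝ)
    (he : 0 < e) : ∃ c : ℝ, 0 < c ∧ ∃ C : ℝ, ∀ q : ℕ, 0 < q → Even q →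
      FewIn D c C (q.lcm 3) ∨ ∀ a : ℕ, Even a → Share D q a ((1 / 3 - e) / q) := by
  obtain ⟨c, hc, C, h⟩ := third_index hk hD h0 e he
  refine ⟨c, hc, C, fun q hq hq2 => ?_⟩
  obtain ⟨h1, h2, -⟩ := lcm_three q hq hq2
  rcases h _ h1 h2 with h3 | h3
  · exact Or.inl h3
  · exact Or.inr fun a ha => Share.of_lcm hq hq2 _ h3 a ha

/-- few exceptions for some modulus, or a third of every even class and half of the multiples of every
even number -/
theorem globally_index {k : ℕ} (hk : 0 < k) {D : Set ℕ} (hD : HitsBins 4 k D) (h0 : 0 ∉ D) :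
    (∃ q : ℕ, 0 < q ∧ ∃ c : ℝ, 0 < c ∧ ∃ C : ℝ, FewIn D c C q) ∨ ∀ q : ℕ, 0 < q → Even q →
      Share D q 0 (1 / 2 / (q : ℝ)) ∧ ∀ a : ℕ, Even a → Share D q a (1 / 3 / (q : ℝ)) := by
  by_cases h : ∃ q : ℕ, 0 < q ∧ ∃ c : ℝ, 0 < c ∧ ∃ C : ℝ, FewIn D c C q
  · exact Or.inl h
  right
  have hthird : ∀ q : ℕ, 0 < q → Even q → ∀ a : ℕ, Even a → Share D q a (1 / 3 / (q : ℝ)) := by
    intro q hq hq2 a ha
    refine Share.of_forall fun e he => ?_
    have hqR : (0 : ℝ) < q := by exact_mod_cast hq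
    obtain ⟨c, hc, C, h1⟩ := power_index hk hD h0 (e * q) (by positivity)
    rcases h1 q hq hq2 with h2 | h2
    · exact absurd ⟨_, (lcm_three q hq hq2).1, c, hc, C, h2⟩ h
    · have h3 := h2 a ha
      have h4 : (1 / 3 - e * q) / (q : ℝ) = 1 / 3 / (q : ℝ) - e := by
        field_simp
      rwa [h4] at h3
  exact fun q hq hq2 => ⟨Pool.Agent.HALF.half_even (k := k)
    (fun E hE h3 => Pool.Agent.HOM.half_key E k hE h3) hD hthird q hq hq2, hthird q hq hq2⟩

end Pool.Agent.Lib_helper31.PS
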